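import Pool.Agent.H42.Freg.Defs

/-!
# Cartier maps on polynomial rings
-/

open MvPolynomial

namespace Pool.Agent.H42.Freg

/-- There is a `Q`-inverse-linear functional on `K` with value `1` at a given nonzero element. -/
theorem exists_lam (K : Type*) [Field K] (p : ℕ) [Fact p.Prime] [CharP K p] (e : ℕ) {κ : K}
    (hκ : κ ≠ 0) : ∃ lam : K →+ K, IsCart (p ^ e) lam ∧ lam κ = 1 := by
  have : ExpChar K p := ExpChar.prime Fact.out
  set F := (iterateFrobenius K p e).fieldRange with hF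
  -- linear functional to the subfield
  obtain ⟨l, hl⟩ : ∃ l : Module.Dual F K, l κ ≠ 0 := by
    by_contra hcon
    push Not at hcon
    exact hκ ((Module.forall_dual_apply_eq_zero_iff F κ).mp hcon)
  set l' : Module.Dual F K := (l κ)⁻¹ • l with hl'
  have hl1 : l' κ = 1 := by
    simp [hl', inv_mul_cancel₀ hl]
  let E : K ≃+* F := (iterateFrobenius K p e).rangeRestrictFieldEquiv
  have hE : ∀ x : K, ((E x : F) : K) = x ^ p ^ e := fun x => by
    show iterateFrobenius K p e x = _
    rw [iterateFrobenius_def]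
  refine ⟨E.symm.toAddEquiv.toAddMonoidHom.comp l'.toAddMonoidHom, ?_, ?_⟩
  · intro a b
    have h1 : a ^ p ^ e * b = (E a) • b := by
      rw [← hE a]; rfl
    show E.symm (l' (a ^ p ^ e * b)) = a * E.symm (l' b)
    rw [h1, map_smul, smul_eq_mul, map_mul, RingEquiv.symm_apply_apply]
  · show E.symm (l' κ) = 1
    rw [hl1, map_one]

variable {σ : Type*} {K : Type*} [Field K]

/-- the map `γ ↦ Q γ + ν` is injective for `Q ≠ 0`. -/
theorem aff_inj {Q : ℕ} (hQ : 0 < Q) (ν : σ →₀ ℕ) :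
    Function.Injective (fun γ : σ →₀ ℕ => Q • γ + ν) := by
  intro a b h
  have h1 : Q • a = Q • b := by simpa using h
  ext i
  have := DFunLike.congr_fun h1 i
  simp only [Finsupp.smul_apply, smul_eq_mul] at this
  exact Nat.eq_of_mul_eq_mul_left hQ this

open Classical in
/-- The function `κ_ν`: the coefficient of `x^γ` in `κ_ν f` is `lam` of the coefficient of
`x^(Qγ+ν)` in `f`. -/
noncomputable def kapFun (Q : ℕ) (ν : σ →₀ ℕ) (lam : K →+ K) (f : MvPolynomial σ K) :
    MvPolynomial σ K :=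
  ∑ α ∈ f.support, if h : ∃ γ : σ →₀ ℕ, Q • γ + ν = α then monomial h.choose (lam (coeff α f))
    else 0

theorem coeff_kapFun {Q : ℕ} (hQ : 0 < Q) (ν : σ →₀ ℕ) (lam : K →+ K) (f : MvPolynomial σ K)
    (γ : σ →₀ ℕ) : coeff γ (kapFun Q ν lam f) = lam (coeff (Q • γ + ν) f) := by
  classical
  rw [kapFun, coeff_sum]
  have key : ∀ α ∈ f.support, coeff γ (if h : ∃ γ : σ →₀ ℕ, Q • γ + ν = α then
      monomial h.choose (lam (coeff α f)) else 0) =
      if Q • γ + ν = α then lam (coeff α f) else 0 := by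
    intro α _
    by_cases h : ∃ γ : σ →₀ ℕ, Q • γ + ν = α
    · rw [dif_pos h, coeff_monomial]
      have h1 := h.choose_spec
      by_cases h2 : Q • γ + ν = α
      · rw [if_pos h2, if_pos]
        exact aff_inj hQ ν (h1.trans h2.symm)
      · rw [if_neg h2, if_neg]
        intro h3
        rw [h3] at h1
        exact h2 h1
    · rw [dif_neg h, coeff_zero, if_neg]
      intro h2; exact h ⟨γ, h2⟩
  rw [Finset.sum_congr rfl key, Finset.sum_ite_eq]
  split_ifs with h
  · rfl
  · rw [notMem_support_iff.mp h, map_zero]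

/-- The Cartier map `κ_ν`. -/
noncomputable def kap {Q : ℕ} (hQ : 0 < Q) (ν : σ →₀ ℕ) (lam : K →+ K) :
    MvPolynomial σ K →+ MvPolynomial σ K where
  toFun := kapFun Q ν lam
  map_zero' := by
    ext γ; rw [coeff_kapFun hQ, coeff_zero, map_zero, coeff_zero]
  map_add' f g := by
    ext γ; rw [coeff_kapFun hQ, coeff_add, map_add, coeff_add, coeff_kapFun hQ, coeff_kapFun hQ]

theorem coeff_kap {Q : ℕ} (hQ : 0 < Q) (ν : σ →₀ ℕ) (lam : K →+ K) (f : MvPolynomial σ K)
    (γ : σ →₀ ℕ) : coeff γ (kap hQ ν lam f) = lam (coeff (Q • γ + ν) f) :=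
  coeff_kapFun hQ ν lam f γ

theorem isCart_kap {p : ℕ} [Fact p.Prime] [CharP K p] {e : ℕ} (hQ : 0 < p ^ e) {ν : σ →₀ ℕ}
    (hν : ∀ i, ν i < p ^ e) {lam : K →+ K} (hlam : IsCart (p ^ e) lam) :
    IsCart (p ^ e) (kap (σ := σ) hQ ν lam) := by
  classical
  have : ExpChar K p := ExpChar.prime Fact.out
  intro a b
  induction a using MvPolynomial.induction_on' with
  | monomial γ₁ k =>
    ext γ
    rw [coeff_kap, monomial_pow, coeff_monomial_mul', coeff_monomial_mul', coeff_kap]
    have hiff : p ^ e • γ₁ ≤ p ^ e • γ + ν ↔ γ₁ ≤ γ := by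
      constructor
      · intro h i
        have h1 := h i
        simp only [Finsupp.smul_apply, smul_eq_mul, Finsupp.coe_add, Pi.add_apply] at h1
        have h2 := hν i
        by_contra h3
        push Not at h3
        have : p ^ e * (γ i + 1) ≤ p ^ e * γ₁ i := Nat.mul_le_mul_left _ h3
        rw [mul_add, mul_one] at this
        omega
      · intro h i
        have h1 := Nat.mul_le_mul_left (p ^ e) (h i)
        simp only [Finsupp.smul_apply, smul_eq_mul, Finsupp.coe_add, Pi.add_apply]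
        omega
    by_cases h : γ₁ ≤ γ
    · rw [if_pos (hiff.mpr h), if_pos h, hlam]
      congr 3
      ext i
      have h1 := h i
      have h2 := Nat.mul_le_mul_left (p ^ e) h1
      simp only [Finsupp.smul_apply, smul_eq_mul, Finsupp.coe_add, Pi.add_apply,
        Finsupp.coe_tsub, Pi.sub_apply]
      rw [Nat.mul_sub]
      omega
    · rw [if_neg (fun h' => h (hiff.mp h')), if_neg h, map_zero]
  | add f g hf hg =>
    rw [add_pow_expChar_pow, add_mul, map_add, hf, hg, add_mul]

/-- If `f` is homogeneous of degree `|ν|` then `κ_ν f` is the constant `lam (coeff ν f)`. -/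
theorem kap_homog {Q : ℕ} (hQ : 0 < Q) {ν : σ →₀ ℕ} {lam : K →+ K} {f : MvPolynomial σ K}
    (hf : ∀ γ : σ →₀ ℕ, γ ≠ 0 → coeff (Q • γ + ν) f = 0) :
    kap hQ ν lam f = C (lam (coeff ν f)) := by
  classical
  ext γ
  rw [coeff_kap, coeff_C]
  by_cases h : 0 = γ
  · rw [if_pos h, ← h, smul_zero, zero_add]
  · rw [if_neg h, hf γ (Ne.symm h), map_zero]

/-- The induced map on a quotient. -/
noncomputable def quotMap {P : Type*} [CommRing P] (I : Ideal P) (φ : P →+ P)
    (h : ∀ x ∈ I, φ x ∈ I) : P ⧸ I →+ P ⧸ I :=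
  QuotientAddGroup.map (Submodule.toAddSubgroup I) (Submodule.toAddSubgroup I) φ h

theorem quotMap_mk {P : Type*} [CommRing P] (I : Ideal P) (φ : P →+ P)
    (h : ∀ x ∈ I, φ x ∈ I) (x : P) :
    quotMap I φ h (Ideal.Quotient.mk I x) = Ideal.Quotient.mk I (φ x) := rfl

theorem isCart_quotMap {P : Type*} [CommRing P] {I : Ideal P} {φ : P →+ P}
    {h : ∀ x ∈ I, φ x ∈ I} {Q : ℕ} (hφ : IsCart Q φ) : IsCart Q (quotMap I φ h) := by
  intro a b
  obtain ⟨a, rfl⟩ := Ideal.Quotient.mk_surjective a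
  obtain ⟨b, rfl⟩ := Ideal.Quotient.mk_surjective b
  rw [← map_pow, ← map_mul, quotMap_mk, quotMap_mk, hφ, map_mul]

/-- Multiplying by `f^(Q-1)`, with `f` the product of generators of `I`, makes a Cartier map
compatible with `I`. -/
theorem fedder {P E : Type*} [CommRing P] [Fintype E] (c : E → P) {Q : ℕ} (hQ : 0 < Q)
    {κ : P →+ P} (hκ : IsCart Q κ) (x : P) (hx : x ∈ Ideal.span (Set.range c)) :
    κ ((∏ e, c e) ^ (Q - 1) * x) ∈ Ideal.span (Set.range c) := by
  classical
  have key : ∀ g, κ ((∏ e, c e) ^ (Q - 1) * (g * x)) ∈ Ideal.span (Set.range c) := by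
    refine Submodule.span_induction
      (p := fun x _ => ∀ g, κ ((∏ e, c e) ^ (Q - 1) * (g * x)) ∈ Ideal.span (Set.range c))
      ?_ ?_ ?_ ?_ hx
    · rintro _ ⟨e, rfl⟩ g
      have h1 : (∏ e, c e) ^ (Q - 1) * (g * c e) =
          c e ^ Q * ((∏ e' ∈ Finset.univ.erase e, c e') ^ (Q - 1) * g) := by
        rw [← Finset.mul_prod_erase Finset.univ c (Finset.mem_univ e), mul_pow]
        obtain ⟨m, rfl⟩ := Nat.exists_eq_succ_of_ne_zero hQ.ne'
        rw [Nat.succ_sub_one, pow_succ]
        ring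
      rw [h1, hκ]
      exact Ideal.mul_mem_right _ _ (Ideal.subset_span ⟨e, rfl⟩)
    · intro g; simp
    · intro x y _ _ hx hy g
      rw [mul_add, mul_add, map_add]
      exact Ideal.add_mem _ (hx g) (hy g)
    · intro a x _ hx g
      rw [smul_eq_mul, ← mul_assoc g]
      exact hx _
  simpa using key 1

end Pool.Agent.H42.Freg
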