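import Pool.Agent.H42.Freg.Comm

/-!
# The anti-diagonal entries
-/

set_option linter.unusedSimpArgs false
set_option linter.unreachableTactic false
set_option linter.unusedTactic false

namespace Pool.Agent.H42.Freg

namespace OddJ

variable {κ : Type*} [DecidableEq κ]

/-- weights of the x-variables -/
def wx (k₀ : κ) : (κ × Bool) ⊕ Unit → (κ × Bool) ⊕ Unit → ℤ
  | .inl (k, false), .inr _ => if k = k₀ then 2 else -100
  | .inl (k, true), .inr _ => if k = k₀ then 0 else -100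
  | .inr _, .inl _ => 1
  | .inr _, .inr _ => -100
  | .inl (k, true), .inl (k', true) => if k = k' then 0 else -100
  | .inl (_, false), .inl _ => -100
  | .inl (_, true), .inl (_, false) => -100

/-- weights of the y-variables -/
def wy (k₀ : κ) : (κ × Bool) ⊕ Unit → (κ × Bool) ⊕ Unit → ℤ
  | .inl _, .inr _ => 0
  | .inr _, .inl (k, false) => if k = k₀ then 0 else -100
  | .inr _, .inl (_, true) => -100
  | .inr _, .inr _ => -100
  | .inl _, .inl _ => -100

/-- rows -/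
def row : (κ × Bool) ⊕ Unit → ((κ × Bool) ⊕ Unit) × ((κ × Bool) ⊕ Unit)
  | .inl (k, b) => (.inl (k, b), .inl (k, !b))
  | .inr _ => (.inr (), .inr ())

/-- columns -/
def col (k₀ : κ) : (κ × Bool) ⊕ Unit → ((κ × Bool) ⊕ Unit) × ((κ × Bool) ⊕ Unit)
  | .inl (k, b) => (.inl (k, b), .inl (k, !b))
  | .inr _ => (.inr (), .inl (k₀, true))

/-- middle index of the leading monomial -/
def mid (k₀ : κ) : (κ × Bool) ⊕ Unit → (κ × Bool) ⊕ Unit
  | .inl _ => .inr ()
  | .inr _ => .inl (k₀, false)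

/-- the leading variables of the diagonal entries -/
def mv (k₀ : κ) : (κ × Bool) ⊕ Unit → ((κ × Bool) ⊕ Unit) × ((κ × Bool) ⊕ Unit)
  | .inl (k, _) => (.inl (k, true), .inl (k, true))
  | .inr _ => (.inl (k₀, true), .inr ())

/-- row potentials -/
def al : (κ × Bool) ⊕ Unit → ℤ
  | .inl _ => 0
  | .inr _ => -3

/-- column potentials -/
def be : (κ × Bool) ⊕ Unit → ℤ
  | .inl _ => 0
  | .inr _ => 3

/-- the certificate -/
def comb (k₀ : κ) : Comb ((κ × Bool) ⊕ Unit) ((κ × Bool) ⊕ Unit) where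
  row := row
  par e := e
  hp _ := false
  col := col k₀
  wx := wx k₀
  wy := wy k₀
  mid := mid k₀
  sgn _ := false
  mv := mv k₀
  α := al
  β := be
  par_ok e _ := rfl
  col_inj := by
    rintro (⟨k, _ | _⟩ | ⟨⟩) (⟨k', _ | _⟩ | ⟨⟩) h <;> simp_all [col]
  lead1 := by
    rintro (⟨k, _ | _⟩ | ⟨⟩) (⟨k', _ | _⟩ | ⟨⟩) <;>
      simp [wx, wy, row, mid] <;> (try split_ifs) <;> first | omega | simp_all
  lead2 := by
    rintro (⟨k, _ | _⟩ | ⟨⟩) (⟨k', _ | _⟩ | ⟨⟩) <;>
      simp [wx, wy, row, mid] <;> (try split_ifs) <;> first | omega | simp_all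
  ent1 := by
    rintro (⟨k, _ | _⟩ | ⟨⟩) (⟨k', _ | _⟩ | ⟨⟩) h h' <;>
      simp_all [wx, row, col, mv, al, be, kt]
  ent2 := by
    rintro (⟨k, _ | _⟩ | ⟨⟩) (⟨k', _ | _⟩ | ⟨⟩) h h' <;>
      simp_all [wx, row, col, mv, al, be, kt]
  ent3 := by simp
  ent4 := by simp
  diag := by
    rintro (⟨k, _ | _⟩ | ⟨⟩) <;> simp [row, col, mv, kt]
  mvw := by
    rintro (⟨k, _ | _⟩ | ⟨⟩) <;> simp [wx, mv, al, be]
  lx_inj := by
    rintro (⟨k, _ | _⟩ | ⟨⟩) (⟨k', _ | _⟩ | ⟨⟩) h <;> simp_all [row, mid]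
  ly_inj := by
    rintro (⟨k, _ | _⟩ | ⟨⟩) (⟨k', _ | _⟩ | ⟨⟩) h <;> simp_all [row, mid]
  mv_ne := by
    rintro (⟨k, _ | _⟩ | ⟨⟩) (⟨k', _ | _⟩ | ⟨⟩) <;> simp [row, mid, mv]

end OddJ

namespace EvenJ

variable {κ : Type*} [DecidableEq κ]

/-- weights of the x-variables -/
def wx (k₀ : κ) : (κ × Bool) ⊕ Bool → (κ × Bool) ⊕ Bool → ℤ
  | .inl (k, false), .inr false => if k = k₀ then 0 else -100
  | .inl (k, true), .inr true => if k = k₀ then 0 else -100
  | .inl (_, false), .inr true => -100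
  | .inl (_, true), .inr false => -100
  | .inr false, .inl _ => 1
  | .inr true, .inl _ => -100
  | .inr false, .inr _ => -100
  | .inr true, .inr false => -100
  | .inr true, .inr true => 0
  | .inl (k, true), .inl (k', true) => if k = k' then 0 else -100
  | .inl (_, false), .inl _ => -100
  | .inl (_, true), .inl (_, false) => -100

/-- weights of the y-variables -/
def wy (k₀ : κ) : (κ × Bool) ⊕ Bool → (κ × Bool) ⊕ Bool → ℤ
  | .inl _, .inr false => 0
  | .inl _, .inr true => -100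
  | .inr false, .inl (k, true) => if k = k₀ then 0 else -100
  | .inr true, .inl (k, false) => if k = k₀ then 0 else -100
  | .inr false, .inl (_, false) => -100
  | .inr true, .inl (_, true) => -100
  | .inr _, .inr _ => -100
  | .inl _, .inl _ => -100

/-- rows and columns -/
def row : (κ × Bool) ⊕ Bool → ((κ × Bool) ⊕ Bool) × ((κ × Bool) ⊕ Bool)
  | .inl (k, b) => (.inl (k, b), .inl (k, !b))
  | .inr b => (.inr b, .inr !b)

/-- middle index of the leading monomial -/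
def mid (k₀ : κ) : (κ × Bool) ⊕ Bool → (κ × Bool) ⊕ Bool
  | .inl _ => .inr false
  | .inr false => .inl (k₀, true)
  | .inr true => .inl (k₀, false)

/-- the leading variables of the diagonal entries -/
def mv : (κ × Bool) ⊕ Bool → ((κ × Bool) ⊕ Bool) × ((κ × Bool) ⊕ Bool)
  | .inl (k, _) => (.inl (k, true), .inl (k, true))
  | .inr _ => (.inr true, .inr true)

/-- the certificate -/
def comb (k₀ : κ) : Comb ((κ × Bool) ⊕ Bool) ((κ × Bool) ⊕ Bool) where
  row := row
  par e := e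
  hp _ := false
  col := row
  wx := wx k₀
  wy := wy k₀
  mid := mid k₀
  sgn _ := false
  mv := mv
  α _ := 0
  β _ := 0
  par_ok e _ := rfl
  col_inj := by
    rintro (⟨k, _ | _⟩ | _ | _) (⟨k', _ | _⟩ | _ | _) h <;> simp_all [row]
  lead1 := by
    rintro (⟨k, _ | _⟩ | _ | _) (⟨k', _ | _⟩ | _ | _) <;>
      simp [wx, wy, row, mid] <;> (try split_ifs) <;> first | omega | simp_all
  lead2 := by
    rintro (⟨k, _ | _⟩ | _ | _) (⟨k', _ | _⟩ | _ | _) <;>
      simp [wx, wy, row, mid] <;> (try split_ifs) <;> first | omega | simp_all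
  ent1 := by
    rintro (⟨k, _ | _⟩ | _ | _) (⟨k', _ | _⟩ | _ | _) h h' <;>
      simp_all [wx, row, mv, kt]
  ent2 := by
    rintro (⟨k, _ | _⟩ | _ | _) (⟨k', _ | _⟩ | _ | _) h h' <;>
      simp_all [wx, row, mv, kt]
  ent3 := by simp
  ent4 := by simp
  diag := by
    rintro (⟨k, _ | _⟩ | _ | _) <;> simp [row, mv, kt]
  mvw := by
    rintro (⟨k, _ | _⟩ | _ | _) <;> simp [wx, mv]
  lx_inj := by
    rintro (⟨k, _ | _⟩ | _ | _) (⟨k', _ | _⟩ | _ | _) h <;> simp_all [row, mid]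
  ly_inj := by
    rintro (⟨k, _ | _⟩ | _ | _) (⟨k', _ | _⟩ | _ | _) h <;> simp_all [row, mid]
  mv_ne := by
    rintro (⟨k, _ | _⟩ | _ | _) (⟨k', _ | _⟩ | _ | _) <;> simp [row, mid, mv]

end EvenJ

end Pool.Agent.H42.Freg
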