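import Mathlib

/-!
# Unique monomials of highest weight
-/

open MvPolynomial

namespace Pool.Agent.H42.Freg

variable {σ K : Type*} [Field K]

/-- the weight of a monomial -/
noncomputable abbrev wt (w : σ → ℤ) (m : σ →₀ ℕ) : ℤ := Finsupp.weight w m

/-- all monomials have weight at most `W` -/
def AtMost (w : σ → ℤ) (g : MvPolynomial σ K) (W : ℤ) : Prop := ∀ m, coeff m g ≠ 0 → wt w m ≤ W

/-- all monomials have weight less than `W` -/
def Below (w : σ → ℤ) (g : MvPolynomial σ K) (W : ℤ) : Prop := ∀ m, coeff m g ≠ 0 → wt w m < W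

/-- `m` is the unique monomial of `g` of highest weight -/
def Top (w : σ → ℤ) (g : MvPolynomial σ K) (m : σ →₀ ℕ) : Prop :=
  coeff m g ≠ 0 ∧ ∀ m', coeff m' g ≠ 0 → m' ≠ m → wt w m' < wt w m

variable {w : σ → ℤ} {g h : MvPolynomial σ K}

theorem Below.atMost {W : ℤ} (hg : Below w g W) : AtMost w g W := fun m hm => (hg m hm).le

theorem Top.atMost {m : σ →₀ ℕ} (hg : Top w g m) : AtMost w g (wt w m) := by
  intro m' hm'
  by_cases h : m' = m
  · rw [h]
  · exact (hg.2 m' hm' h).le

theorem below_zero {W : ℤ} : Below w (0 : MvPolynomial σ K) W := by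
  intro m hm; rw [coeff_zero] at hm; exact absurd rfl hm

theorem Below.add {W : ℤ} (hg : Below w g W) (hh : Below w h W) : Below w (g + h) W := by
  intro m hm
  rw [coeff_add] at hm
  by_cases h1 : coeff m g = 0
  · rw [h1, zero_add] at hm; exact hh m hm
  · exact hg m h1

theorem Below.neg {W : ℤ} (hg : Below w g W) : Below w (-g) W := by
  intro m hm
  rw [coeff_neg] at hm
  exact hg m (by simpa using hm)

theorem Below.sub {W : ℤ} (hg : Below w g W) (hh : Below w h W) : Below w (g - h) W := by
  rw [sub_eq_add_neg]; exact hg.add hh.neg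

theorem Below.sum {T : Type*} {s : Finset T} {g : T → MvPolynomial σ K} {W : ℤ}
    (hg : ∀ t ∈ s, Below w (g t) W) : Below w (∑ t ∈ s, g t) W := by
  classical
  induction s using Finset.induction_on with
  | empty => rw [Finset.sum_empty]; exact below_zero
  | insert a s ha ih =>
    rw [Finset.sum_insert ha]
    exact (hg a (Finset.mem_insert_self _ _)).add
      (ih fun t ht => hg t (Finset.mem_insert_of_mem ht))

theorem exists_of_coeff_mul {n : σ →₀ ℕ} (hn : coeff n (g * h) ≠ 0) :
    ∃ a b, a + b = n ∧ coeff a g ≠ 0 ∧ coeff b h ≠ 0 := by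
  classical
  rw [coeff_mul] at hn
  obtain ⟨⟨a, b⟩, h1, h2⟩ := Finset.exists_ne_zero_of_sum_ne_zero hn
  exact ⟨a, b, Finset.HasAntidiagonal.mem_antidiagonal.mp h1, left_ne_zero_of_mul h2, right_ne_zero_of_mul h2⟩

theorem wt_add (a b : σ →₀ ℕ) : wt w (a + b) = wt w a + wt w b := map_add _ _ _

theorem AtMost.mul {W V : ℤ} (hg : AtMost w g W) (hh : AtMost w h V) : AtMost w (g * h) (W + V) := by
  intro n hn
  obtain ⟨a, b, rfl, h1, h2⟩ := exists_of_coeff_mul hn
  rw [wt_add]
  exact add_le_add (hg a h1) (hh b h2)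

theorem Below.mul {W V : ℤ} (hg : Below w g W) (hh : AtMost w h V) : Below w (g * h) (W + V) := by
  intro n hn
  obtain ⟨a, b, rfl, h1, h2⟩ := exists_of_coeff_mul hn
  rw [wt_add]
  exact add_lt_add_of_lt_of_le (hg a h1) (hh b h2)

theorem atMost_one : AtMost w (1 : MvPolynomial σ K) 0 := by
  classical
  intro m hm
  rw [coeff_one] at hm
  have : 0 = m := by by_contra h; rw [if_neg h] at hm; exact hm rfl
  rw [← this, wt, map_zero]

theorem AtMost.prod {T : Type*} {s : Finset T} {g : T → MvPolynomial σ K} {W : T → ℤ}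
    (hg : ∀ t ∈ s, AtMost w (g t) (W t)) : AtMost w (∏ t ∈ s, g t) (∑ t ∈ s, W t) := by
  classical
  induction s using Finset.induction_on with
  | empty => simpa using atMost_one
  | insert a s ha ih =>
    rw [Finset.prod_insert ha, Finset.sum_insert ha]
    exact (hg a (Finset.mem_insert_self _ _)).mul
      (ih fun t ht => hg t (Finset.mem_insert_of_mem ht))

theorem Below.prod {T : Type*} {s : Finset T} {g : T → MvPolynomial σ K} {W : T → ℤ}
    (hg : ∀ t ∈ s, AtMost w (g t) (W t)) {t₀ : T} (h₀ : t₀ ∈ s) (hb : Below w (g t₀) (W t₀)) :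
    Below w (∏ t ∈ s, g t) (∑ t ∈ s, W t) := by
  classical
  rw [← Finset.mul_prod_erase s g h₀, ← Finset.add_sum_erase s W h₀]
  exact hb.mul (AtMost.prod fun t ht => hg t (Finset.mem_of_mem_erase ht))

theorem Top.add_below {m : σ →₀ ℕ} (hg : Top w g m) (hh : Below w h (wt w m)) :
    Top w (g + h) m := by
  have h0 : coeff m h = 0 := by
    by_contra h1
    exact lt_irrefl _ (hh m h1)
  refine ⟨by rw [coeff_add, h0, add_zero]; exact hg.1, fun m' hm' hne => ?_⟩
  rw [coeff_add] at hm'
  by_cases h1 : coeff m' g = 0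
  · rw [h1, zero_add] at hm'; exact hh m' hm'
  · exact hg.2 m' h1 hne

theorem Top.neg {m : σ →₀ ℕ} (hg : Top w g m) : Top w (-g) m := by
  refine ⟨by rw [coeff_neg]; simpa using hg.1, fun m' hm' hne => hg.2 m' ?_ hne⟩
  rw [coeff_neg] at hm'; simpa using hm'

theorem Top.mul {m n : σ →₀ ℕ} (hg : Top w g m) (hh : Top w h n) : Top w (g * h) (m + n) := by
  classical
  constructor
  · rw [coeff_mul, Finset.sum_eq_single (m, n)]
    · exact mul_ne_zero hg.1 hh.1
    · rintro ⟨a, b⟩ hab hne
      rw [Finset.HasAntidiagonal.mem_antidiagonal] at hab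
      simp only at hab ⊢
      by_contra h0
      have ha := left_ne_zero_of_mul h0
      have hb := right_ne_zero_of_mul h0
      have h1 : wt w a + wt w b = wt w m + wt w n := by rw [← wt_add, ← wt_add, hab]
      by_cases h2 : a = m
      · subst h2
        have h3 : b = n := add_left_cancel hab
        exact hne (by rw [h3])
      · have h3 := hg.2 a ha h2
        have h4 := hh.atMost b hb
        linarith
    · intro hn
      exact absurd (by simp) hn
  · intro k hk hne
    obtain ⟨a, b, rfl, h1, h2⟩ := exists_of_coeff_mul hk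
    rw [wt_add, wt_add]
    by_cases h3 : a = m
    · have h4 : b ≠ n := by rintro rfl; exact hne (by rw [h3])
      have := hh.2 b h2 h4
      have := hg.atMost a h1
      linarith
    · have := hg.2 a h1 h3
      have := hh.atMost b h2
      linarith

theorem top_one : Top w (1 : MvPolynomial σ K) 0 := by
  classical
  refine ⟨by rw [coeff_one, if_pos rfl]; exact one_ne_zero, fun m hm hne => ?_⟩
  rw [coeff_one, if_neg (Ne.symm hne)] at hm
  exact absurd rfl hm

theorem Top.pow {m : σ →₀ ℕ} (hg : Top w g m) (n : ℕ) : Top w (g ^ n) (n • m) := by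
  induction n with
  | zero => simpa using top_one
  | succ n ih => rw [pow_succ, succ_nsmul]; exact ih.mul hg

theorem Top.prod {T : Type*} {s : Finset T} {g : T → MvPolynomial σ K} {m : T → σ →₀ ℕ}
    (hg : ∀ t ∈ s, Top w (g t) (m t)) : Top w (∏ t ∈ s, g t) (∑ t ∈ s, m t) := by
  classical
  induction s using Finset.induction_on with
  | empty => simpa using top_one
  | insert a s ha ih =>
    rw [Finset.prod_insert ha, Finset.sum_insert ha]
    exact (hg a (Finset.mem_insert_self _ _)).mul
      (ih fun t ht => hg t (Finset.mem_insert_of_mem ht))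

theorem Below.zsmul_unit {W : ℤ} (hg : Below w g W) (u : ℤˣ) : Below w (u • g) W := by
  rcases Int.units_eq_one_or u with rfl | rfl
  · simpa using hg
  · rw [Units.neg_smul, one_smul]; exact hg.neg

/-- The determinant of a matrix with row and column potentials. -/
theorem top_det {E : Type*} [Fintype E] [DecidableEq E] {N : Matrix E E (MvPolynomial σ K)}
    {m : E → σ →₀ ℕ} {α β : E → ℤ} (htop : ∀ e, Top w (N e e) (m e))
    (hw : ∀ e, wt w (m e) = α e + β e)
    (hoff : ∀ e e', e ≠ e' → Below w (N e e') (α e + β e')) : Top w N.det (∑ e, m e) := by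
  classical
  rw [Matrix.det_apply, ← Finset.add_sum_erase _ _ (Finset.mem_univ (1 : Equiv.Perm E))]
  have hsum : wt w (∑ e, m e) = ∑ e, α e + ∑ e, β e := by
    rw [wt, map_sum, ← Finset.sum_add_distrib]
    exact Finset.sum_congr rfl fun e _ => hw e
  refine Top.add_below ?_ ?_
  · rw [Equiv.Perm.sign_one, one_smul]
    exact Top.prod fun e _ => htop e
  · refine Below.sum fun s hs => Below.zsmul_unit ?_ _
    have hne := Finset.ne_of_mem_erase hs
    obtain ⟨i, hi⟩ : ∃ i, s i ≠ i := by
      by_contra hcon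
      push Not at hcon
      exact hne (Equiv.ext hcon)
    have h1 : wt w (∑ e, m e) = ∑ i, (α (s i) + β i) := by
      rw [hsum, Finset.sum_add_distrib, Equiv.sum_comp s α]
    rw [h1]
    refine Below.prod (fun j _ => ?_) (Finset.mem_univ i) (hoff _ _ hi)
    by_cases hj : s j = j
    · rw [hj, ← hw j]; exact (htop j).atMost
    · exact (hoff _ _ hj).atMost

theorem below_monomial {m : σ →₀ ℕ} {k : K} {W : ℤ} (h : wt w m < W) :
    Below w (monomial m k) W := by
  classical
  intro m' hm'
  rw [coeff_monomial] at hm'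
  by_cases h1 : m = m'
  · rwa [← h1]
  · rw [if_neg h1] at hm'; exact absurd rfl hm'

theorem top_monomial {m : σ →₀ ℕ} {k : K} (hk : k ≠ 0) : Top w (monomial m k) m := by
  classical
  refine ⟨by rw [coeff_monomial, if_pos rfl]; exact hk, fun m' hm' hne => ?_⟩
  rw [coeff_monomial, if_neg (Ne.symm hne)] at hm'
  exact absurd rfl hm'

theorem wt_single (i : σ) : wt w (Finsupp.single i 1) = w i := by
  rw [wt, Finsupp.weight_apply, Finsupp.sum_single_index (by simp), one_smul]

theorem below_X {i : σ} {W : ℤ} (h : w i < W) : Below w (X i : MvPolynomial σ K) W :=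
  below_monomial (by rwa [wt_single])

theorem top_X (i : σ) : Top w (X i : MvPolynomial σ K) (Finsupp.single i 1) :=
  top_monomial one_ne_zero

end Pool.Agent.H42.Freg
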