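import Pool.Agent.H42.Freg.Crit
import Pool.Agent.H42.Freg.Top

/-!
# Ideals generated by entries of the commutator matrix
-/

open MvPolynomial

set_option linter.unusedSectionVars false

namespace Pool.Agent.H42.Freg

variable {ι K E : Type*} [Fintype ι] [DecidableEq ι] [Field K] [Fintype E] [DecidableEq E]

/-- the variables -/
abbrev V (ι : Type*) : Type _ := (ι × ι) ⊕ (ι × ι)

/-- the matrix `X` -/
noncomputable def matX (ι K : Type*) [Field K] : Matrix ι ι (MvPolynomial (V ι) K) :=
  Matrix.of fun i j => X (Sum.inl (i, j))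

/-- the matrix `Y` -/
noncomputable def matY (ι K : Type*) [Field K] : Matrix ι ι (MvPolynomial (V ι) K) :=
  Matrix.of fun i j => X (Sum.inr (i, j))

variable (K) in
/-- the commutator matrix -/
noncomputable def cc (i j : ι) : MvPolynomial (V ι) K :=
  (matX ι K * matY ι K - matY ι K * matX ι K) i j

omit [DecidableEq ι] in
theorem cc_eq (i j : ι) : cc K i j = ∑ k, X (Sum.inl (i, k)) * X (Sum.inr (k, j)) -
    ∑ k, X (Sum.inr (i, k)) * X (Sum.inl (k, j)) := rfl

variable (K) in
/-- a conditional variable -/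
noncomputable def term (c : Prop) [Decidable c] (v : ι × ι) : MvPolynomial (V ι) K :=
  if c then X (Sum.inl v) else 0

omit [Fintype ι] [DecidableEq ι] in
theorem coeff_term (c : Prop) [Decidable c] (v : ι × ι) {m : V ι →₀ ℕ}
    (h : coeff m (term K c v) ≠ 0) : c ∧ m = Finsupp.single (Sum.inl v) 1 := by
  classical
  unfold term at h
  split_ifs at h with hc
  · refine ⟨hc, ?_⟩
    rw [coeff_X] at h
    by_contra h2
    rw [if_neg (fun h3 => h2 h3.symm)] at h
    exact h rfl
  · rw [coeff_zero] at h; exact absurd rfl h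

omit [Fintype ι] in
theorem coeff_term_single (c : Prop) [Decidable c] (v v' : ι × ι) :
    coeff (Finsupp.single (Sum.inl v') 1) (term K c v) = if c ∧ v = v' then 1 else 0 := by
  classical
  unfold term
  by_cases hc : c
  · rw [if_pos hc, coeff_X]
    by_cases hv : v = v'
    · rw [if_pos (by rw [hv]), if_pos ⟨hc, hv⟩]
    · rw [if_neg, if_neg (fun h => hv h.2)]
      intro h
      rw [Finsupp.single_left_inj one_ne_zero] at h
      exact hv (Sum.inl_injective h)
  · rw [if_neg hc, coeff_zero, if_neg (fun h => hc h.1)]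

omit [Fintype ι] [DecidableEq ι] in
theorem cast_ne {z : ℤ} (h : z ∈ ({1, -1} : Set ℤ)) : (z : K) ≠ 0 := by
  rcases h with h | h
  · rw [h]; simp
  · rw [Set.mem_singleton_iff] at h
    rw [h]; simp

/-- The integer coefficient of `x_v` in the coefficient of `y_kl` in the generator of index `e`. -/
def kt {ι E : Type*} [DecidableEq ι] (row : E → ι × ι) (par : E → E) (hp : E → Bool) (e : E)
    (kl v : ι × ι) : ℤ :=
  (if kl.2 = (row e).2 ∧ ((row e).1, kl.1) = v then (1 : ℤ) else 0) -
    (if (row e).1 = kl.1 ∧ (kl.2, (row e).2) = v then 1 else 0) +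
    ((if (hp e = true ∧ kl.2 = (row (par e)).2) ∧ ((row (par e)).1, kl.1) = v
        then 1 else 0) -
      (if (hp e = true ∧ (row (par e)).1 = kl.1) ∧ (kl.2, (row (par e)).2) = v
        then 1 else 0))

/-- Combinatorial data which certify the criterion for the ideal generated by the entries `row e` of
the commutator matrix. -/
structure Comb (ι E : Type*) [DecidableEq ι] [DecidableEq E] where
  row : E → ι × ι
  par : E → E
  hp : E → Bool
  col : E → ι × ι
  wx : ι → ι → ℤ
  wy : ι → ι → ℤ
  mid : E → ι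
  sgn : E → Bool
  mv : E → ι × ι
  α : E → ℤ
  β : E → ℤ
  par_ok : ∀ e, hp e = true → hp (par e) = false
  col_inj : Function.Injective col
  lead1 : ∀ e k, (sgn e = true ∧ k = mid e) ∨ wx (row e).1 k + wy k (row e).2 <
    (if sgn e = true then wx (row e).1 (mid e) + wy (mid e) (row e).2 else
      wy (row e).1 (mid e) + wx (mid e) (row e).2)
  lead2 : ∀ e k, (sgn e = false ∧ k = mid e) ∨ wy (row e).1 k + wx k (row e).2 <
    (if sgn e = true then wx (row e).1 (mid e) + wy (mid e) (row e).2 else
      wy (row e).1 (mid e) + wx (mid e) (row e).2)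
  ent1 : ∀ e e', (col e').2 = (row e).2 →
    kt row par hp e (col e') ((row e).1, (col e').1) ≠ 0 →
    wx (row e).1 (col e').1 < α e + β e' ∨ (e = e' ∧ mv e = ((row e).1, (col e').1))
  ent2 : ∀ e e', (row e).1 = (col e').1 →
    kt row par hp e (col e') ((col e').2, (row e).2) ≠ 0 →
    wx (col e').2 (row e).2 < α e + β e' ∨ (e = e' ∧ mv e = ((col e').2, (row e).2))
  ent3 : ∀ e e', hp e = true → (col e').2 = (row (par e)).2 →
    kt row par hp e (col e') ((row (par e)).1, (col e').1) ≠ 0 →
    wx (row (par e)).1 (col e').1 < α e + β e' ∨ (e = e' ∧ mv e = ((row (par e)).1, (col e').1))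
  ent4 : ∀ e e', hp e = true → (row (par e)).1 = (col e').1 →
    kt row par hp e (col e') ((col e').2, (row (par e)).2) ≠ 0 →
    wx (col e').2 (row (par e)).2 < α e + β e' ∨ (e = e' ∧ mv e = ((col e').2, (row (par e)).2))
  diag : ∀ e, kt row par hp e (col e) (mv e) ∈ ({1, -1} : Set ℤ)
  mvw : ∀ e, wx (mv e).1 (mv e).2 = α e + β e
  lx_inj : Function.Injective fun e => if sgn e = true then ((row e).1, mid e) else
    (mid e, (row e).2)
  ly_inj : Function.Injective fun e => if sgn e = true then (mid e, (row e).2) else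
    ((row e).1, mid e)
  mv_ne : ∀ e e', mv e ≠ if sgn e' = true then ((row e').1, mid e') else (mid e', (row e').2)

namespace Comb

variable (D : Comb ι E)

variable (K) in
/-- the coefficient of `y_kl` in `c'_e` -/
noncomputable def B (e : E) (kl : ι × ι) : MvPolynomial (V ι) K :=
  term K (kl.2 = (D.row e).2) ((D.row e).1, kl.1) - term K ((D.row e).1 = kl.1) (kl.2, (D.row e).2) +
    (term K (D.hp e = true ∧ kl.2 = (D.row (D.par e)).2) ((D.row (D.par e)).1, kl.1) -
      term K (D.hp e = true ∧ (D.row (D.par e)).1 = kl.1) (kl.2, (D.row (D.par e)).2))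

variable (K) in
/-- the generators used for `f` -/
noncomputable def g (e : E) : MvPolynomial (V ι) K := cc K (D.row e).1 (D.row e).2

variable (K) in
/-- the generators used for `δ` -/
noncomputable def g' (e : E) : MvPolynomial (V ι) K :=
  D.g K e + if D.hp e = true then D.g K (D.par e) else 0

theorem sum_term (c : Prop) [Decidable c] (i j : ι) :
    ∑ kl : ι × ι, (term K (c ∧ kl.2 = j) (i, kl.1) - term K (c ∧ i = kl.1) (kl.2, j)) *
      X (Sum.inr kl) = if c then cc K i j else 0 := by
  classical
  by_cases hc : c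
  · simp only [hc, true_and, if_true, cc_eq]
    simp only [sub_mul, Finset.sum_sub_distrib]
    congr 1
    · rw [Fintype.sum_prod_type]
      refine Finset.sum_congr rfl fun k _ => ?_
      rw [Finset.sum_eq_single j]
      · simp [term]
      · intro l _ hl; simp [term, hl]
      · intro h; exact absurd (Finset.mem_univ _) h
    · rw [Fintype.sum_prod_type_right]
      refine Finset.sum_congr rfl fun k _ => ?_
      rw [Finset.sum_eq_single i]
      · simp [term, mul_comm]
      · intro l _ hl; simp [term, Ne.symm hl]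
      · intro h; exact absurd (Finset.mem_univ _) h
  · simp [hc, term]

theorem g'_eq (e : E) : D.g' K e = ∑ kl : ι × ι, D.B K e kl * X (Sum.inr kl) := by
  have h1 := sum_term (K := K) True (D.row e).1 (D.row e).2
  have h2 := sum_term (K := K) (D.hp e = true) (D.row (D.par e)).1 (D.row (D.par e)).2
  simp only [if_true] at h1
  rw [g', g, g, ← h1, ← h2, ← Finset.sum_add_distrib]
  refine Finset.sum_congr rfl fun kl _ => ?_
  rw [B, ← add_mul]
  simp only [true_and]

theorem term_mem (c : Prop) [Decidable c] (v : ι × ι) :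
    term K c v ∈ supported K (Set.range fun e => (Sum.inr (D.col e) : V ι))ᶜ := by
  unfold term
  split_ifs
  · refine Algebra.subset_adjoin ⟨_, ?_, rfl⟩
    rintro ⟨e, he⟩
    exact absurd he (by simp)
  · exact Subalgebra.zero_mem _

theorem B_mem (e : E) (kl : ι × ι) :
    D.B K e kl ∈ supported K (Set.range fun e => (Sum.inr (D.col e) : V ι))ᶜ :=
  Subalgebra.add_mem _ (Subalgebra.sub_mem _ (D.term_mem _ _) (D.term_mem _ _))
    (Subalgebra.sub_mem _ (D.term_mem _ _) (D.term_mem _ _))

open Classical in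
variable (K) in
/-- the associated linear data -/
noncomputable def lin : Lin (V ι) E K where
  u e := Sum.inr (D.col e)
  hu := fun a b h => D.col_inj (Sum.inr_injective h)
  c := D.g' K
  M := Matrix.of fun e e' => D.B K e (D.col e')
  r e := ∑ kl ∈ Finset.univ.filter (fun kl => kl ∉ Set.range D.col), D.B K e kl * X (Sum.inr kl)
  hM e e' := D.B_mem e _
  hr e := by
    refine Subalgebra.sum_mem _ fun kl hkl => Subalgebra.mul_mem _ (D.B_mem e _) ?_
    rw [Finset.mem_filter] at hkl
    refine Algebra.subset_adjoin ⟨_, ?_, rfl⟩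
    rintro ⟨e', he'⟩
    exact hkl.2 ⟨e', Sum.inr_injective he'⟩
  hc e := by
    rw [g'_eq, ← Finset.sum_filter_add_sum_filter_not Finset.univ
      (fun kl => kl ∈ Set.range D.col)]
    congr 1
    have : Finset.univ.filter (fun kl => kl ∈ Set.range D.col) = Finset.univ.image D.col := by
      ext kl; simp
    rw [this, Finset.sum_image fun a _ b _ h => D.col_inj h]
    rfl

theorem span_eq : Ideal.span (Set.range (D.g K)) = (D.lin K).I := by
  have hI : (D.lin K).I = Ideal.span (Set.range (D.g' K)) := rfl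
  rw [hI]
  have h0 : ∀ e, D.hp e = false → D.g' K e = D.g K e := by
    intro e he; rw [g', if_neg (by rw [he]; decide), add_zero]
  apply le_antisymm
  · refine Ideal.span_le.mpr ?_
    rintro _ ⟨e, rfl⟩
    by_cases he : D.hp e = true
    · have h1 : D.g K e = D.g' K e - D.g' K (D.par e) := by
        rw [h0 _ (D.par_ok e he), g', if_pos he]; ring
      show D.g K e ∈ _
      rw [h1]
      exact Ideal.sub_mem _ (Ideal.subset_span ⟨e, rfl⟩) (Ideal.subset_span ⟨_, rfl⟩)
    · rw [← h0 e (by simpa using he)]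
      exact Ideal.subset_span ⟨e, rfl⟩
  · refine Ideal.span_le.mpr ?_
    rintro _ ⟨e, rfl⟩
    refine Ideal.add_mem _ (Ideal.subset_span ⟨e, rfl⟩) ?_
    split_ifs
    · exact Ideal.subset_span ⟨_, rfl⟩
    · exact Ideal.zero_mem _

omit [Fintype ι] [DecidableEq ι] in
theorem hom_term (c : Prop) [Decidable c] (v : ι × ι) : (term K c v).IsHomogeneous 1 := by
  unfold term
  split_ifs
  · exact isHomogeneous_X _ _
  · exact isHomogeneous_zero _ _ _

theorem hom_B (e : E) (kl : ι × ι) : (D.B K e kl).IsHomogeneous 1 :=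
  ((hom_term _ _).sub (hom_term _ _)).add ((hom_term _ _).sub (hom_term _ _))

theorem hom_δ : (D.lin K).δ.IsHomogeneous (Fintype.card E) := by
  rw [Lin.δ, Matrix.det_apply]
  refine IsHomogeneous.sum _ _ _ fun s _ => ?_
  have h1 : (∏ i, (D.lin K).M (s i) i).IsHomogeneous (∑ i : E, 1) :=
    IsHomogeneous.prod _ _ _ fun i _ => D.hom_B _ _
  have h2 : (∑ i : E, 1) = Fintype.card E := by simp
  rw [h2] at h1
  rcases Int.units_eq_one_or (Equiv.Perm.sign s) with h | h
  · rw [h, one_smul]; exact h1
  · rw [h, Units.neg_smul, one_smul]; exact h1.neg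

omit [DecidableEq ι] in
theorem hom_cc (i j : ι) : (cc K i j).IsHomogeneous 2 := by
  rw [cc_eq]
  refine IsHomogeneous.sub ?_ ?_
  · exact IsHomogeneous.sum _ _ _ fun k _ => (isHomogeneous_X _ _).mul (isHomogeneous_X _ _)
  · exact IsHomogeneous.sum _ _ _ fun k _ => (isHomogeneous_X _ _).mul (isHomogeneous_X _ _)

/-- the weights -/
def w : V ι → ℤ := Sum.elim (fun v => D.wx v.1 v.2) (fun v => D.wy v.1 v.2)

theorem coeff_B (e : E) (kl v : ι × ι) :
    coeff (Finsupp.single (Sum.inl v) 1) (D.B K e kl) = (kt D.row D.par D.hp e kl v : K) := by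
  rw [B, coeff_add, coeff_sub, coeff_sub, coeff_term_single, coeff_term_single,
      coeff_term_single, coeff_term_single, kt]
  push_cast
  rfl

theorem coeff_B_wt (e e' : E) {m : V ι →₀ ℕ} (hm : coeff m (D.B K e (D.col e')) ≠ 0) :
    ∃ v, m = Finsupp.single (Sum.inl v) 1 ∧
      (D.wx v.1 v.2 < D.α e + D.β e' ∨ (e = e' ∧ D.mv e = v)) := by
  classical
  have hz : ∀ v, m = Finsupp.single (Sum.inl v) 1 →
      kt D.row D.par D.hp e (D.col e') v ≠ 0 := by
    rintro v rfl h0
    rw [coeff_B, h0, Int.cast_zero] at hm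
    exact hm rfl
  have key : ∀ (c : Prop) [Decidable c] (v : ι × ι),
      (c → kt D.row D.par D.hp e (D.col e') v ≠ 0 →
        D.wx v.1 v.2 < D.α e + D.β e' ∨ (e = e' ∧ D.mv e = v)) →
      coeff m (term K c v) ≠ 0 → ∃ v, m = Finsupp.single (Sum.inl v) 1 ∧
      (D.wx v.1 v.2 < D.α e + D.β e' ∨ (e = e' ∧ D.mv e = v)) := by
    intro c _ v h1 h2
    obtain ⟨hc, hm'⟩ := coeff_term c v h2
    exact ⟨v, hm', h1 hc (hz v hm')⟩
  by_cases h1 : coeff m (term K ((D.col e').2 = (D.row e).2) ((D.row e).1, (D.col e').1)) = 0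
  · by_cases h2 : coeff m (term K ((D.row e).1 = (D.col e').1) ((D.col e').2, (D.row e).2)) = 0
    · by_cases h3 : coeff m (term K (D.hp e = true ∧ (D.col e').2 = (D.row (D.par e)).2)
          ((D.row (D.par e)).1, (D.col e').1)) = 0
      · by_cases h4 : coeff m (term K (D.hp e = true ∧ (D.row (D.par e)).1 = (D.col e').1)
            ((D.col e').2, (D.row (D.par e)).2)) = 0
        · rw [B, coeff_add, coeff_sub, coeff_sub, h1, h2, h3, h4] at hm
          simp at hm
        · exact key _ _ (fun hc => D.ent4 e e' hc.1 hc.2) h4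
      · exact key _ _ (fun hc => D.ent3 e e' hc.1 hc.2) h3
    · exact key _ _ (fun hc => D.ent2 e e' hc) h2
  · exact key _ _ (fun hc => D.ent1 e e' hc) h1

theorem top_B (e : E) : Top D.w (D.B K e (D.col e)) (Finsupp.single (Sum.inl (D.mv e)) 1) := by
  constructor
  · rw [coeff_B]
    exact cast_ne (K := K) (D.diag e)
  · intro m hm hne
    obtain ⟨v, rfl, h1⟩ := D.coeff_B_wt e e hm
    have hw : D.w (Sum.inl (D.mv e)) = D.α e + D.β e := D.mvw e
    rw [wt_single, wt_single, hw]
    rcases h1 with h1 | ⟨_, h1⟩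
    · exact h1
    · exact absurd (by rw [h1]) hne

theorem below_B {e e' : E} (h : e ≠ e') : Below D.w (D.B K e (D.col e')) (D.α e + D.β e') := by
  intro m hm
  obtain ⟨v, rfl, h1⟩ := D.coeff_B_wt e e' hm
  rw [wt_single]
  exact h1.resolve_right fun h2 => h h2.1

theorem top_δ : Top D.w (D.lin K).δ (∑ e, Finsupp.single (Sum.inl (D.mv e)) 1) := by
  refine top_det (α := D.α) (β := D.β) (fun e => D.top_B e) (fun e => ?_)
    (fun e e' h => D.below_B h)
  rw [wt_single]
  exact D.mvw e

/-- the x-variable of the leading monomial -/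
def lx (e : E) : ι × ι := if D.sgn e = true then ((D.row e).1, D.mid e) else
    (D.mid e, (D.row e).2)

/-- the y-variable of the leading monomial -/
def ly (e : E) : ι × ι := if D.sgn e = true then (D.mid e, (D.row e).2) else
    ((D.row e).1, D.mid e)

theorem top_g (e : E) : Top D.w (D.g K e)
    (Finsupp.single (Sum.inl (D.lx e)) 1 + Finsupp.single (Sum.inr (D.ly e)) 1) := by
  classical
  have hX : ∀ a b : V ι, (X a * X b : MvPolynomial (V ι) K) =
      monomial (Finsupp.single a 1 + Finsupp.single b 1) 1 := by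
    intro a b
    rw [X, X, monomial_mul, one_mul]
  have hwt : ∀ a b : V ι, wt D.w (Finsupp.single a 1 + Finsupp.single b 1) = D.w a + D.w b := by
    intro a b; rw [wt_add, wt_single, wt_single]
  rw [g, cc_eq]
  by_cases hs : D.sgn e = true
  · have h1 := D.lead1 e
    have h2 := D.lead2 e
    simp only [hs, if_true, true_and] at h1 h2
    rw [← Finset.add_sum_erase _ _ (Finset.mem_univ (D.mid e)), add_sub_assoc]
    have e1 : D.lx e = ((D.row e).1, D.mid e) := by rw [lx, if_pos hs]
    have e2 : D.ly e = (D.mid e, (D.row e).2) := by rw [ly, if_pos hs]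
    rw [e1, e2, hX]
    refine (top_monomial one_ne_zero).add_below ?_
    rw [hwt]
    refine Below.sub (Below.sum fun k hk => ?_) (Below.sum fun k _ => ?_)
    · rw [hX]; refine below_monomial ?_
      rw [hwt]
      exact (h1 k).resolve_left (Finset.ne_of_mem_erase hk)
    · rw [hX]; refine below_monomial ?_
      rw [hwt]
      exact (h2 k).resolve_left (by simp)
  · have hs' : D.sgn e = false := by simpa using hs
    have h1 := D.lead1 e
    have h2 := D.lead2 e
    simp only [hs', if_false, true_and, Bool.false_eq_true, false_and, false_or] at h1 h2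
    rw [← Finset.add_sum_erase (s := Finset.univ)
      (f := fun k => (X (Sum.inr ((D.row e).1, k)) * X (Sum.inl (k, (D.row e).2)) :
        MvPolynomial (V ι) K)) (Finset.mem_univ (D.mid e))]
    have e1 : D.lx e = (D.mid e, (D.row e).2) := by rw [lx, if_neg hs]
    have e2 : D.ly e = ((D.row e).1, D.mid e) := by rw [ly, if_neg hs]
    have e3 : ∀ a b c : MvPolynomial (V ι) K, a - (b + c) = -b + (a - c) := by intros; ring
    rw [e1, e2, e3, hX, add_comm (Finsupp.single (Sum.inl _) 1)]
    refine (top_monomial one_ne_zero).neg.add_below ?_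
    rw [hwt]
    refine Below.sub (Below.sum fun k _ => ?_) (Below.sum fun k hk => ?_)
    · rw [hX]; refine below_monomial ?_
      rw [hwt]
      exact h1 k
    · rw [hX]; refine below_monomial ?_
      rw [hwt]
      exact (h2 k).resolve_left (Finset.ne_of_mem_erase hk)

/-- The criterion in combinatorial form. -/
theorem sfr (p : ℕ) [Fact p.Prime] [CharP K p] :
    IsDomain (MvPolynomial (V ι) K ⧸ Ideal.span (Set.range (D.g K))) ∧
      SFR p (MvPolynomial (V ι) K ⧸ Ideal.span (Set.range (D.g K))) := by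
  classical
  have hp : 2 ≤ p := (Fact.out : p.Prime).two_le
  obtain ⟨e₁, he₁, hcard⟩ : ∃ e₁, 1 ≤ e₁ ∧ Fintype.card E < p ^ e₁ :=
    ⟨Fintype.card E + 1, by omega, (Nat.lt_pow_self (by omega : 1 < p)).trans
      (Nat.pow_lt_pow_right (by omega) (by omega))⟩
  set Q := p ^ e₁ with hQ
  have htop : Top D.w ((D.lin K).δ * (∏ e, D.g K e) ^ (Q - 1))
      (∑ e, Finsupp.single (Sum.inl (D.mv e)) 1 + (Q - 1) • ∑ e,
        (Finsupp.single (Sum.inl (D.lx e)) 1 + Finsupp.single (Sum.inr (D.ly e)) 1)) :=
    D.top_δ.mul ((Top.prod fun e _ => D.top_g e).pow _)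
  have hhom : ((D.lin K).δ * (∏ e, D.g K e) ^ (Q - 1)).IsHomogeneous
      (Fintype.card E + (∑ e : E, 2) * (Q - 1)) :=
    D.hom_δ.mul ((IsHomogeneous.prod _ _ _ fun e _ => hom_cc _ _).pow _)
  have hinj1 : Function.Injective D.lx := D.lx_inj
  have hinj2 : Function.Injective D.ly := D.ly_inj
  have hcount : ∀ (f : E → V ι) (v : V ι), (∑ e, Finsupp.single (f e) 1) v =
      (Finset.univ.filter fun e => f e = v).card := by
    intro f v
    rw [Finsupp.finsetSum_apply, Finset.card_filter]
    exact Finset.sum_congr rfl fun e _ => by rw [Finsupp.single_apply]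
  have hle1 : ∀ (f : E → V ι), Function.Injective f → ∀ v,
      (Finset.univ.filter fun e => f e = v).card ≤ 1 := by
    intro f hf v
    rw [Finset.card_le_one]
    intro a ha b hb
    rw [Finset.mem_filter] at ha hb
    exact hf (ha.2.trans hb.2.symm)
  have := (D.lin K).criterion (p := p) (D.g K) D.span_eq he₁ hhom (ν := _) ?_ htop.1
  · rw [D.span_eq]; exact this
  · intro v
    rw [← hQ, Finset.sum_add_distrib]
    simp only [Finsupp.coe_add, Finsupp.smul_apply, smul_eq_mul, Pi.add_apply]
    rw [hcount, hcount, hcount]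
    rcases v with v | v
    · have h0 : (Finset.univ.filter fun e => (Sum.inr (D.ly e) : V ι) = Sum.inl v).card = 0 := by
        simp
      rw [h0, add_zero]
      have h1 := hle1 (fun e => Sum.inl (D.lx e)) (Sum.inl_injective.comp hinj1) (Sum.inl v)
      by_cases h2 : ∃ e', D.lx e' = v
      · obtain ⟨e', he'⟩ := h2
        have h3 : (Finset.univ.filter fun e => (Sum.inl (D.mv e) : V ι) = Sum.inl v).card = 0 := by
          rw [Finset.card_eq_zero, Finset.filter_eq_empty_iff]
          intro e _ h4
          have h5 := Sum.inl_injective h4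
          exact D.mv_ne e e' (h5.trans he'.symm)
        rw [h3]
        have h4 : (Q - 1) * (Finset.univ.filter fun e => (Sum.inl (D.lx e) : V ι) =
            Sum.inl v).card ≤ (Q - 1) * 1 := Nat.mul_le_mul_left _ h1
        omega
      · have h3 : (Finset.univ.filter fun e => (Sum.inl (D.lx e) : V ι) = Sum.inl v).card = 0 := by
          rw [Finset.card_eq_zero, Finset.filter_eq_empty_iff]
          intro e _ h4
          exact h2 ⟨e, Sum.inl_injective h4⟩
        rw [h3, mul_zero, add_zero]
        refine lt_of_le_of_lt (Finset.card_le_univ _) hcard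
    · have h0 : (Finset.univ.filter fun e => (Sum.inl (D.mv e) : V ι) = Sum.inr v).card = 0 := by
        simp
      have h0' : (Finset.univ.filter fun e => (Sum.inl (D.lx e) : V ι) = Sum.inr v).card = 0 := by
        simp
      rw [h0, h0', zero_add, zero_add]
      have h1 := hle1 (fun e => Sum.inr (D.ly e)) (Sum.inr_injective.comp hinj2) (Sum.inr v)
      have h4 : (Q - 1) * (Finset.univ.filter fun e => (Sum.inr (D.ly e) : V ι) =
            Sum.inr v).card ≤ (Q - 1) * 1 := Nat.mul_le_mul_left _ h1
      omega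

end Comb

end Pool.Agent.H42.Freg
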