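import Pool.Agent.H42.Freg.Frac

/-!
# The criterion
-/

open MvPolynomial

namespace Pool.Agent.H42.Freg

section Crit

variable {σ E K : Type*} [Fintype σ] [Fintype E] [DecidableEq E] [Field K]

/-- The data of the criterion: generators `c'` which are affine-linear in the variables `u e`, with
coefficients `M`, `r` not involving these variables. -/
structure Lin (σ E K : Type*) [Fintype σ] [Fintype E] [DecidableEq E] [Field K] where
  u : E → σ
  hu : Function.Injective u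
  c : E → MvPolynomial σ K
  M : Matrix E E (MvPolynomial σ K)
  r : E → MvPolynomial σ K
  hM : ∀ e e', M e e' ∈ supported K (Set.range u)ᶜ
  hr : ∀ e, r e ∈ supported K (Set.range u)ᶜ
  hc : ∀ e, c e = ∑ e', M e e' * X (u e') + r e

variable (D : Lin σ E K)

namespace Lin

/-- the subalgebra of polynomials without the variables `u e` -/
noncomputable abbrev A : Subalgebra K (MvPolynomial σ K) := supported K (Set.range D.u)ᶜ

/-- the determinant -/
noncomputable def δ : MvPolynomial σ K := D.M.det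

/-- the ideal -/
noncomputable def I : Ideal (MvPolynomial σ K) := Ideal.span (Set.range D.c)

/-- `δ * X (u e)` is congruent to `w e`. -/
noncomputable def w (e : E) : MvPolynomial σ K := - ∑ e', D.M.adjugate e e' * D.r e'

theorem δ_mem : D.δ ∈ D.A := by
  rw [δ, Matrix.det_apply]
  refine Subalgebra.sum_mem _ fun s _ => ?_
  refine Subalgebra.zsmul_mem _ ?_ _
  exact Subalgebra.prod_mem _ fun i _ => D.hM _ _

theorem adj_mem (e e' : E) : D.M.adjugate e e' ∈ D.A := by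
  classical
  rw [Matrix.adjugate_apply, Matrix.det_apply]
  refine Subalgebra.sum_mem _ fun s _ => ?_
  refine Subalgebra.zsmul_mem _ ?_ _
  refine Subalgebra.prod_mem _ fun i _ => ?_
  rw [Matrix.updateRow_apply]
  split_ifs with h
  · by_cases h2 : e = i
    · rw [h2, Pi.single_eq_same]; exact Subalgebra.one_mem _
    · rw [Pi.single_eq_of_ne (Ne.symm h2)]; exact Subalgebra.zero_mem _
  · exact D.hM _ _

theorem w_mem (e : E) : D.w e ∈ D.A :=
  Subalgebra.neg_mem _ (Subalgebra.sum_mem _ fun _ _ =>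
    Subalgebra.mul_mem _ (D.adj_mem _ _) (D.hr _))

theorem δX (e : E) : D.δ * X (D.u e) - D.w e ∈ D.I := by
  have h1 : D.δ * X (D.u e) - D.w e = ∑ e', D.M.adjugate e e' * D.c e' := by
    have h2 : (D.M.adjugate * D.M).mulVec (fun e' => X (D.u e')) e = D.δ * X (D.u e) := by
      rw [Matrix.adjugate_mul, Matrix.smul_mulVec, Matrix.one_mulVec]
      rfl
    rw [← h2, ← Matrix.mulVec_mulVec, w, sub_neg_eq_add]
    simp only [Matrix.mulVec, dotProduct]
    rw [← Finset.sum_add_distrib]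
    refine Finset.sum_congr rfl fun e' _ => ?_
    rw [D.hc, mul_add]
  rw [h1]
  exact Ideal.sum_mem _ fun e' _ => Ideal.mul_mem_left _ _ (Ideal.subset_span ⟨e', rfl⟩)

theorem exists_pow (s : MvPolynomial σ K) : ∃ N : ℕ, ∃ a ∈ D.A, D.δ ^ N * s - a ∈ D.I := by
  classical
  induction s using MvPolynomial.induction_on with
  | C k => exact ⟨0, C k, Subalgebra.algebraMap_mem _ k, by simp⟩
  | add f g hf hg =>
    obtain ⟨N1, a1, h1, h1'⟩ := hf
    obtain ⟨N2, a2, h2, h2'⟩ := hg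
    refine ⟨N1 + N2, D.δ ^ N2 * a1 + D.δ ^ N1 * a2, ?_, ?_⟩
    · exact Subalgebra.add_mem _ (Subalgebra.mul_mem _ (Subalgebra.pow_mem _ D.δ_mem _) h1)
        (Subalgebra.mul_mem _ (Subalgebra.pow_mem _ D.δ_mem _) h2)
    · have : D.δ ^ (N1 + N2) * (f + g) - (D.δ ^ N2 * a1 + D.δ ^ N1 * a2) =
        D.δ ^ N2 * (D.δ ^ N1 * f - a1) + D.δ ^ N1 * (D.δ ^ N2 * g - a2) := by ring
      rw [this]
      exact Ideal.add_mem _ (Ideal.mul_mem_left _ _ h1') (Ideal.mul_mem_left _ _ h2')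
  | mul_X f i hf =>
    obtain ⟨N1, a1, h1, h1'⟩ := hf
    by_cases hi : i ∈ Set.range D.u
    · obtain ⟨e, rfl⟩ := hi
      refine ⟨N1 + 1, a1 * D.w e, Subalgebra.mul_mem _ h1 (D.w_mem e), ?_⟩
      have : D.δ ^ (N1 + 1) * (f * X (D.u e)) - a1 * D.w e =
        (D.δ * X (D.u e)) * (D.δ ^ N1 * f - a1) + a1 * (D.δ * X (D.u e) - D.w e) := by ring
      rw [this]
      exact Ideal.add_mem _ (Ideal.mul_mem_left _ _ h1') (Ideal.mul_mem_left _ _ (D.δX e))
    · refine ⟨N1, a1 * X i, Subalgebra.mul_mem _ h1 ?_, ?_⟩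
      · exact Algebra.subset_adjoin ⟨i, hi, rfl⟩
      · have : D.δ ^ N1 * (f * X i) - a1 * X i = X i * (D.δ ^ N1 * f - a1) := by ring
        rw [this]
        exact Ideal.mul_mem_left _ _ h1'

/-- the fraction field of the big polynomial ring -/
noncomputable abbrev L (σ K : Type*) [Field K] : Type _ := FractionRing (MvPolynomial σ K)

/-- the embedding -/
noncomputable abbrev ι : MvPolynomial σ K →ₐ[K] L σ K := IsScalarTower.toAlgHom K _ _

open Classical in
/-- The evaluation, which kills the ideal. -/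
noncomputable def ev : MvPolynomial σ K →ₐ[K] L σ K :=
  aeval fun i => if h : ∃ e, D.u e = i then ι (D.w h.choose) / ι D.δ else ι (X i)

theorem ev_u (e : E) : D.ev (X (D.u e)) = ι (D.w e) / ι D.δ := by
  have h : ∃ e', D.u e' = D.u e := ⟨e, rfl⟩
  rw [ev, aeval_X, dif_pos h, D.hu h.choose_spec]

theorem ev_A {a : MvPolynomial σ K} (ha : a ∈ D.A) : D.ev a = ι a := by
  induction ha using Algebra.adjoin_induction with
  | mem x hx =>
    obtain ⟨i, hi, rfl⟩ := hx
    have h : ¬ ∃ e, D.u e = i := fun ⟨e, he⟩ => hi ⟨e, he⟩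
    rw [ev, aeval_X, dif_neg h]
  | algebraMap k => rw [AlgHom.commutes, AlgHom.commutes]
  | add x y _ _ hx hy => rw [map_add, map_add, hx, hy]
  | mul x y _ _ hx hy => rw [map_mul, map_mul, hx, hy]

omit [Fintype σ] in
theorem ι_inj : Function.Injective (ι : MvPolynomial σ K →ₐ[K] L σ K) :=
  IsFractionRing.injective _ _

theorem ev_c (hδ : D.δ ≠ 0) (e : E) : D.ev (D.c e) = 0 := by
  have hδ' : (ι D.δ : L σ K) ≠ 0 := fun h => hδ (ι_inj (by rw [h, map_zero]))
  rw [D.hc, map_add, map_sum, D.ev_A (D.hr e)]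
  have h1 : ∀ e', D.ev (D.M e e' * X (D.u e')) = ι (D.M e e' * D.w e') / ι D.δ := by
    intro e'
    rw [map_mul, D.ev_A (D.hM _ _), D.ev_u, map_mul, mul_div_assoc]
  rw [Finset.sum_congr rfl fun e' _ => h1 e', ← Finset.sum_div, ← map_sum]
  have h2 : ∑ e', D.M e e' * D.w e' = - (D.δ * D.r e) := by
    have h3 : (D.M * D.M.adjugate).mulVec D.r e = D.δ * D.r e := by
      rw [Matrix.mul_adjugate, Matrix.smul_mulVec, Matrix.one_mulVec]
      rfl
    rw [← h3, ← Matrix.mulVec_mulVec]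
    simp only [Matrix.mulVec, dotProduct, w]
    rw [← Finset.sum_neg_distrib]
    exact Finset.sum_congr rfl fun e' _ => by rw [mul_neg]
  rw [h2, map_neg, map_mul]
  field_simp
  ring

theorem ev_I (hδ : D.δ ≠ 0) {x : MvPolynomial σ K} (hx : x ∈ D.I) : D.ev x = 0 := by
  have h1 : D.I ≤ RingHom.ker D.ev.toRingHom := by
    refine Ideal.span_le.mpr ?_
    rintro _ ⟨e, rfl⟩
    exact D.ev_c hδ e
  exact h1 hx

/-- Elements of `A` are the polynomials whose monomials do not involve the variables `u e`. -/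
theorem mem_A_iff {a : MvPolynomial σ K} : a ∈ D.A ↔ ∀ m ∈ a.support, ∀ e, m (D.u e) = 0 := by
  rw [mem_supported]
  constructor
  · intro h m hm e
    by_contra h0
    have h1 : D.u e ∈ a.vars := by
      rw [mem_vars_iff_mem_support]
      exact ⟨m, hm, by simpa using h0⟩
    exact h h1 ⟨e, rfl⟩
  · intro h i hi
    have hi' : i ∈ a.vars := hi
    rw [mem_vars_iff_mem_support] at hi'
    obtain ⟨m, hm, hmi⟩ := hi'
    rintro ⟨e, rfl⟩
    simp only [Finsupp.mem_support_iff] at hmi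
    exact hmi (h m hm e)

theorem kap_mem {Q : ℕ} (hQ : 0 < Q) (μ : σ →₀ ℕ) (lam : K →+ K) {a : MvPolynomial σ K}
    (ha : a ∈ D.A) : kap hQ μ lam a ∈ D.A := by
  rw [mem_A_iff] at ha ⊢
  intro m hm e
  rw [mem_support_iff, coeff_kap] at hm
  have h1 : Q • m + μ ∈ a.support := by
    rw [mem_support_iff]
    intro h0; rw [h0, map_zero] at hm; exact hm rfl
  have h2 := ha _ h1 e
  simp only [Finsupp.coe_add, Finsupp.smul_apply, smul_eq_mul, Pi.add_apply, Nat.add_eq_zero_iff,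
    mul_eq_zero] at h2
  omega

theorem δ_ev_X (hδ : D.δ ≠ 0) (i : σ) : ∃ a ∈ D.A, ι D.δ * D.ev (X i) = ι a := by
  have hδ' : (ι D.δ : L σ K) ≠ 0 := fun h => hδ (ι_inj (by rw [h, map_zero]))
  by_cases hi : i ∈ Set.range D.u
  · obtain ⟨e, rfl⟩ := hi
    refine ⟨D.w e, D.w_mem e, ?_⟩
    rw [D.ev_u]; field_simp
  · have h : ¬ ∃ e, D.u e = i := fun ⟨e, he⟩ => hi ⟨e, he⟩
    refine ⟨D.δ * X i, Subalgebra.mul_mem _ D.δ_mem (Algebra.subset_adjoin ⟨i, hi, rfl⟩), ?_⟩
    rw [ev, aeval_X, dif_neg h, map_mul]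

theorem δ_ev_mon (hδ : D.δ ≠ 0) (m : σ →₀ ℕ) (k : K) :
    ∃ a ∈ D.A, ι D.δ ^ (∑ i, m i) * D.ev (monomial m k) = ι a := by
  choose a ha ha' using D.δ_ev_X hδ
  refine ⟨C k * ∏ i, a i ^ m i, Subalgebra.mul_mem _ (Subalgebra.algebraMap_mem _ k)
    (Subalgebra.prod_mem _ fun i _ => Subalgebra.pow_mem _ (ha i) _), ?_⟩
  rw [monomial_eq, map_mul, map_mul, map_prod]
  have h1 : D.ev (C k) = ι (C k) := D.ev_A (Subalgebra.algebraMap_mem _ k)
  rw [h1, Finsupp.prod_fintype _ _ (fun i => pow_zero _), map_prod, ← Finset.prod_pow_eq_pow_sum]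
  have h2 : ∀ i, (ι (a i ^ m i) : L σ K) = ι D.δ ^ m i * D.ev (X i ^ m i) := by
    intro i
    rw [map_pow, map_pow, ← ha' i, mul_pow]
  rw [Finset.prod_congr rfl fun i _ => h2 i, Finset.prod_mul_distrib]
  ring

theorem ψ_ev (hδ : D.δ ≠ 0) {Q : ℕ} (hQ : 0 < Q) {ψ : MvPolynomial σ K →+ MvPolynomial σ K}
    (hψA : ∀ a ∈ D.A, ψ a ∈ D.A) {ψL : L σ K →+ L σ K} (hψL : IsCart Q ψL)
    (hext : ∀ a, ψL (ι a) = ι (ψ a)) (s : MvPolynomial σ K) :
    ∃ t, D.ev t = ι D.δ ^ Fintype.card σ * ψL (D.ev s) := by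
  classical
  induction s using MvPolynomial.induction_on' with
  | monomial m k =>
    set m1 : σ →₀ ℕ := m.mapRange (fun x => x / Q) (Nat.zero_div Q) with hm1
    set m2 : σ →₀ ℕ := m.mapRange (fun x => x % Q) (Nat.zero_mod Q) with hm2
    have h1 : m = Q • m1 + m2 := by
      ext i
      simp only [hm1, hm2, Finsupp.coe_add, Finsupp.smul_apply, Finsupp.mapRange_apply,
        smul_eq_mul, Pi.add_apply]
      exact (Nat.div_add_mod _ _).symm
    have h2 : monomial m k = (monomial m1 1) ^ Q * monomial m2 k := by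
      rw [monomial_pow, monomial_mul, one_pow, one_mul, ← h1]
    obtain ⟨a, ha, ha'⟩ := D.δ_ev_mon hδ m2 k
    set N := ∑ i, m2 i with hN
    have hNle : N ≤ Fintype.card σ * Q := by
      have : N ≤ ∑ i : σ, Q := by
        refine Finset.sum_le_sum fun i _ => ?_
        simp only [hm2, Finsupp.mapRange_apply]
        exact (Nat.mod_lt _ hQ).le
      simpa [Finset.sum_const, Finset.card_univ] using this
    have hmem : D.δ ^ (Fintype.card σ * Q - N) * a ∈ D.A :=
      Subalgebra.mul_mem _ (Subalgebra.pow_mem _ D.δ_mem _) ha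
    refine ⟨monomial m1 1 * ψ (D.δ ^ (Fintype.card σ * Q - N) * a), ?_⟩
    have e1 : ψL (D.ev (monomial m k)) = D.ev (monomial m1 1) * ψL (D.ev (monomial m2 k)) := by
      rw [h2, map_mul, map_pow, hψL]
    have e2 : (ι (D.δ ^ (Fintype.card σ * Q - N) * a) : L σ K) =
        (ι D.δ ^ Fintype.card σ) ^ Q * D.ev (monomial m2 k) := by
      rw [map_mul, ← ha', map_pow, ← mul_assoc, ← pow_add, Nat.sub_add_cancel hNle, pow_mul]
    rw [map_mul, D.ev_A (hψA _ hmem), ← hext, e2, hψL, e1]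
    ring
  | add f g hf hg =>
    obtain ⟨t1, h1⟩ := hf
    obtain ⟨t2, h2⟩ := hg
    exact ⟨t1 + t2, by rw [map_add, h1, h2, map_add, map_add, mul_add]⟩

/-- The criterion. -/
theorem criterion {p : ℕ} [Fact p.Prime] [CharP K p] {E' : Type*} [Fintype E']
    (g : E' → MvPolynomial σ K) (hg : Ideal.span (Set.range g) = D.I) {e₁ : ℕ} (he₁ : 1 ≤ e₁)
    {N : ℕ} (hhom : (D.δ * (∏ e, g e) ^ (p ^ e₁ - 1)).IsHomogeneous N) {ν : σ →₀ ℕ}
    (hν : ∀ i, ν i < p ^ e₁) (hco : coeff ν (D.δ * (∏ e, g e) ^ (p ^ e₁ - 1)) ≠ 0) :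
    IsDomain (MvPolynomial σ K ⧸ D.I) ∧ SFR p (MvPolynomial σ K ⧸ D.I) := by
  classical
  have hp : 2 ≤ p := (Fact.out : p.Prime).two_le
  have hQ : 0 < p ^ e₁ := by positivity
  have hδ : D.δ ≠ 0 := by
    intro h; rw [h, zero_mul, coeff_zero] at hco; exact hco rfl
  obtain ⟨lam, hlam, hlam1⟩ := exists_lam K p e₁ hco
  have hκ := isCart_kap (σ := σ) hQ hν hlam
  have hΦ0 : ∀ x ∈ D.I, ((kap hQ ν lam).comp
      (AddMonoidHom.mulLeft ((∏ e, g e) ^ (p ^ e₁ - 1)))) x ∈ D.I := by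
    intro x hx
    rw [← hg] at hx ⊢
    exact fedder g hQ hκ x hx
  have hΦ := isCart_quotMap (h := hΦ0) (hκ.mulLeft _)
  set Φ := quotMap D.I _ hΦ0 with hΦdef
  have hΦδ : Φ (Ideal.Quotient.mk D.I D.δ) = 1 := by
    rw [hΦdef, quotMap_mk, AddMonoidHom.comp_apply, AddMonoidHom.coe_mulLeft, mul_comm,
      kap_homog hQ, hlam1, map_one, map_one]
    intro γ hγ
    by_contra h0
    have h1 : N = ν.degree := by
      by_contra h2
      exact hco (hhom.coeff_eq_zero (Ne.symm h2))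
    have h3 : N = (p ^ e₁ • γ + ν).degree := by
      by_contra h2
      exact h0 (hhom.coeff_eq_zero (Ne.symm h2))
    rw [map_add, map_nsmul, ← h1, smul_eq_mul] at h3
    have h4 : p ^ e₁ * γ.degree = 0 := by omega
    rcases Nat.mul_eq_zero.mp h4 with h5 | h5
    · omega
    · exact hγ ((Finsupp.degree_eq_zero_iff _).mp h5)
  have hnzd : ∀ s : MvPolynomial σ K ⧸ D.I, Ideal.Quotient.mk D.I D.δ * s = 0 → s = 0 := by
    intro s hs
    have h1 : Φ (s ^ p ^ e₁ * Ideal.Quotient.mk D.I D.δ) = s := by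
      rw [hΦ, hΦδ, mul_one]
    rw [← h1]
    obtain ⟨m, hm⟩ := Nat.exists_eq_succ_of_ne_zero hQ.ne'
    have : s ^ p ^ e₁ * Ideal.Quotient.mk D.I D.δ =
        s ^ m * (Ideal.Quotient.mk D.I D.δ * s) := by
      rw [hm, pow_succ]; ring
    rw [this, hs, mul_zero, map_zero]
  have hnzd' : ∀ (n : ℕ) (s : MvPolynomial σ K ⧸ D.I), Ideal.Quotient.mk D.I D.δ ^ n * s = 0 →
      s = 0 := by
    intro n
    induction n with
    | zero => intro s hs; simpa using hs
    | succ n ih =>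
      intro s hs
      rw [pow_succ, mul_assoc] at hs
      exact hnzd _ (ih _ hs)
  set j : MvPolynomial σ K ⧸ D.I →+* L σ K :=
    Ideal.Quotient.lift D.I D.ev.toRingHom (fun x hx => D.ev_I hδ hx) with hj
  have hjmk : ∀ x, j (Ideal.Quotient.mk D.I x) = D.ev x := fun x => rfl
  have hjinj : Function.Injective j := by
    rw [injective_iff_map_eq_zero]
    intro s hs
    obtain ⟨s, rfl⟩ := Ideal.Quotient.mk_surjective s
    rw [hjmk] at hs
    obtain ⟨n, a, ha, h1⟩ := D.exists_pow s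
    have h2 : D.ev a = 0 := by
      have := D.ev_I hδ h1
      rw [map_sub, map_mul, hs, mul_zero, zero_sub, neg_eq_zero] at this
      exact this
    rw [D.ev_A ha] at h2
    have h3 : a = 0 := ι_inj (by rw [h2, map_zero])
    rw [h3, sub_zero] at h1
    apply hnzd' n
    rw [← map_pow, ← map_mul]
    exact Ideal.Quotient.eq_zero_iff_mem.mpr h1
  have hdom : IsDomain (MvPolynomial σ K ⧸ D.I) := hjinj.isDomain j
  refine ⟨hdom, SFR.of_delta hp he₁ hΦ hΦδ ?_⟩
  intro c hc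
  obtain ⟨c, rfl⟩ := Ideal.Quotient.mk_surjective c
  obtain ⟨n, a, ha, h1⟩ := D.exists_pow c
  have ha0 : a ≠ 0 := by
    rintro rfl
    rw [sub_zero] at h1
    apply hc
    apply hnzd' n
    rw [← map_pow, ← map_mul]
    exact Ideal.Quotient.eq_zero_iff_mem.mpr h1
  obtain ⟨μ, hμ⟩ : ∃ μ, coeff μ a ≠ 0 := by
    by_contra hcon
    push Not at hcon
    exact ha0 (MvPolynomial.ext _ _ fun m => by rw [hcon, coeff_zero])
  obtain ⟨E0, hE0⟩ : ∃ E0 : ℕ, a.totalDegree < p ^ E0 :=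
    ⟨a.totalDegree, Nat.lt_pow_self (by omega)⟩
  have hbd : ∀ m, coeff m a ≠ 0 → ∀ i, m i < p ^ E0 := by
    intro m hm i
    have h2 : m ∈ a.support := mem_support_iff.mpr hm
    have h3 := le_totalDegree h2
    have h4 : m i ≤ m.sum fun _ e => e := by
      by_cases h5 : i ∈ m.support
      · exact Finset.single_le_sum (f := fun i => m i) (fun _ _ => Nat.zero_le _) h5
      · rw [Finsupp.notMem_support_iff] at h5
        omega
    omega
  have hQ' : 0 < p ^ E0 := by positivity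
  obtain ⟨lam', hlam', hlam1'⟩ := exists_lam K p E0 hμ
  have hψ := isCart_kap (σ := σ) hQ' (hbd μ hμ) hlam'
  set ψ := kap hQ' μ lam' with hψdef
  have hψa : ψ a = 1 := by
    rw [hψdef, kap_homog hQ', hlam1', map_one]
    intro γ hγ
    by_contra h0
    obtain ⟨i, hi⟩ : ∃ i, γ i ≠ 0 := by
      by_contra hcon
      push Not at hcon
      exact hγ (Finsupp.ext hcon)
    have h2 := hbd _ h0 i
    simp only [Finsupp.coe_add, Finsupp.smul_apply, smul_eq_mul, Pi.add_apply] at h2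
    have h3 : p ^ E0 * 1 ≤ p ^ E0 * γ i := Nat.mul_le_mul_left _ (Nat.one_le_iff_ne_zero.mpr hi)
    omega
  obtain ⟨ψL, hψL, hext⟩ := exists_frac (L := L σ K) hQ' hψ
  have hex : ∀ s : MvPolynomial σ K ⧸ D.I, ∃ t : MvPolynomial σ K ⧸ D.I,
      j t = ι D.δ ^ Fintype.card σ * ψL (j s) := by
    intro s
    obtain ⟨s, rfl⟩ := Ideal.Quotient.mk_surjective s
    obtain ⟨t, ht⟩ := D.ψ_ev hδ hQ' (fun a ha => D.kap_mem hQ' μ lam' ha) hψL hext s
    exact ⟨Ideal.Quotient.mk D.I t, ht⟩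
  choose χ hχ using hex
  have hχadd : ∀ s t, χ (s + t) = χ s + χ t := by
    intro s t
    apply hjinj
    rw [map_add, hχ, hχ, hχ, map_add, map_add, mul_add]
  refine ⟨E0, Fintype.card σ, (AddMonoidHom.mk' χ hχadd).comp
    (AddMonoidHom.mulLeft (Ideal.Quotient.mk D.I D.δ ^ n)), ?_, ?_⟩
  · refine IsCart.mulLeft ?_ _
    intro x y
    apply hjinj
    simp only [AddMonoidHom.mk'_apply]
    rw [map_mul, hχ, hχ, map_mul, map_pow, hψL]
    ring
  · simp only [AddMonoidHom.comp_apply, AddMonoidHom.coe_mulLeft, AddMonoidHom.mk'_apply]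
    have h2 : Ideal.Quotient.mk D.I D.δ ^ n * Ideal.Quotient.mk D.I c = Ideal.Quotient.mk D.I a := by
      rw [← map_pow, ← map_mul]
      exact Ideal.Quotient.eq.mpr h1
    rw [h2]
    apply hjinj
    rw [hχ, map_pow, hjmk, hjmk, D.ev_A ha, D.ev_A D.δ_mem]
    have h3 : ψL (ι a) = 1 := by
      have := hext a
      rwa [hψa, map_one] at this
    rw [h3, mul_one]

end Lin

end Crit

end Pool.Agent.H42.Freg
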