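import Mathlib

/-!
# Tight closure and F-regularity; a criterion by Cartier maps
-/

namespace Pool.Agent.H42.Freg

variable {A : Type*} [CommRing A]

/-- The ideal `I^[q]` generated by the `q`-th powers of the elements of `I`. -/
def frobPow (I : Ideal A) (q : ℕ) : Ideal A := Ideal.span ((fun a => a ^ q) '' (I : Set A))

/-- The tight closure of `I`: the elements `z` such that some `c` outside of all minimal primes
satisfies `c * z ^ q ∈ I^[q]` for all large powers `q` of `p`. -/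
def tightClosure (p : ℕ) (I : Ideal A) : Set A :=
  {z | ∃ c : A, (∀ P ∈ minimalPrimes A, c ∉ P) ∧
    ∃ e₀ : ℕ, ∀ e, e₀ ≤ e → c * z ^ p ^ e ∈ frobPow I (p ^ e)}

/-- Weak F-regularity: every ideal is tightly closed. -/
def WeaklyFRegular (p : ℕ) (A : Type*) [CommRing A] : Prop :=
  ∀ I : Ideal A, tightClosure p I = (I : Set A)

/-- F-regularity: every localization is weakly F-regular. -/
def FRegular (p : ℕ) (A : Type*) [CommRing A] : Prop :=
  ∀ W : Submonoid A, WeaklyFRegular p (Localization W)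

/-- `φ` is `Q`-inverse-linear. -/
def IsCart (Q : ℕ) (φ : A →+ A) : Prop := ∀ a b, φ (a ^ Q * b) = a * φ b

/-- For every nonzero `c` there are `p^e`-inverse-linear maps with value `1` at `c`, with
arbitrarily large `e`. -/
def SFR (p : ℕ) (A : Type*) [CommRing A] : Prop :=
  ∀ c : A, c ≠ 0 → ∀ e₀ : ℕ, ∃ e, e₀ ≤ e ∧ ∃ φ : A →+ A, IsCart (p ^ e) φ ∧ φ c = 1

theorem mem_frobPow {I : Ideal A} {q : ℕ} {a : A} (h : a ∈ I) : a ^ q ∈ frobPow I q :=
  Ideal.subset_span ⟨a, h, rfl⟩

theorem IsCart.map_frobPow {Q : ℕ} {φ : A →+ A} (h : IsCart Q φ) {I : Ideal A} {x : A}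
    (hx : x ∈ frobPow I Q) : φ x ∈ I := by
  have key : ∀ g, φ (g * x) ∈ I := by
    refine Submodule.span_induction (p := fun x _ => ∀ g, φ (g * x) ∈ I) ?_ ?_ ?_ ?_ hx
    · rintro _ ⟨a, ha, rfl⟩ g
      have : g * a ^ Q = a ^ Q * g := mul_comm _ _
      simp only [this, h a g]
      exact I.mul_mem_right _ ha
    · intro g; simp
    · intro x y _ _ hx hy g
      rw [mul_add, map_add]
      exact I.add_mem (hx g) (hy g)
    · intro a x _ hx g
      rw [smul_eq_mul, ← mul_assoc]
      exact hx _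
  simpa using key 1

theorem frobPow_le_map (W : Submonoid A) (I : Ideal (Localization W)) (Q : ℕ) :
    frobPow I Q ≤ Ideal.map (algebraMap A (Localization W))
      (frobPow (I.comap (algebraMap A (Localization W))) Q) := by
  refine Ideal.span_le.mpr ?_
  rintro _ ⟨a, ha, rfl⟩
  obtain ⟨⟨a1, w⟩, hw⟩ := IsLocalization.surj W a
  simp only at hw
  have h1 : a1 ∈ I.comap (algebraMap A (Localization W)) := by
    rw [Ideal.mem_comap, ← hw]
    exact I.mul_mem_right _ ha
  have h2 := Ideal.mem_map_of_mem (algebraMap A (Localization W)) (mem_frobPow (q := Q) h1)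
  have h3 : IsUnit ((algebraMap A (Localization W) w) ^ Q) :=
    (IsLocalization.map_units (Localization W) w).pow Q
  rw [map_pow, ← hw, mul_pow] at h2
  exact (Ideal.mul_unit_mem_iff_mem _ h3).mp h2

theorem SFR.fRegular {p : ℕ} [IsDomain A] (h : SFR p A) (hp : 1 ≤ p) : FRegular p A := by
  intro W I
  apply Set.Subset.antisymm
  · rintro z ⟨c, hc, e₀, he⟩
    by_cases h0 : (0 : A) ∈ W
    · have : Subsingleton (Localization W) := IsLocalization.subsingleton (M := W) h0
      have : z = 0 := Subsingleton.elim _ _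
      rw [this]; exact I.zero_mem
    have hW : W ≤ nonZeroDivisors A := le_nonZeroDivisors_of_noZeroDivisors h0
    have hdom : IsDomain (Localization W) := IsLocalization.isDomain_localization hW
    have hinj : Function.Injective (algebraMap A (Localization W)) :=
      IsLocalization.injective _ hW
    have hc0 : c ≠ 0 := by
      rintro rfl
      exact hc ⊥ (by rw [IsDomain.minimalPrimes_eq_singleton_bot]; rfl) (Ideal.zero_mem _)
    obtain ⟨⟨c1, w1⟩, hw1⟩ := IsLocalization.surj W c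
    obtain ⟨⟨z1, w2⟩, hw2⟩ := IsLocalization.surj W z
    simp only at hw1 hw2
    have hc1 : c1 ≠ 0 := by
      rintro rfl
      rw [map_zero] at hw1
      have h1 := (IsLocalization.map_units (Localization W) w1).ne_zero
      rcases mul_eq_zero.mp hw1 with h2 | h2
      · exact hc0 h2
      · exact h1 h2
    obtain ⟨e, hee, φ, hφ, hφc⟩ := h c1 hc1 e₀
    have h1 := frobPow_le_map W I (p ^ e) (he e hee)
    have h2 : algebraMap A (Localization W) (c1 * z1 ^ p ^ e) ∈
        Ideal.map (algebraMap A (Localization W))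
          (frobPow (I.comap (algebraMap A (Localization W))) (p ^ e)) := by
      rw [map_mul, map_pow, ← hw1, ← hw2, mul_pow]
      have := Ideal.mul_mem_right (algebraMap A (Localization W) w1 *
        (algebraMap A (Localization W) w2) ^ p ^ e) _ h1
      convert this using 1
      ring
    rw [IsLocalization.mem_map_algebraMap_iff W] at h2
    obtain ⟨⟨⟨t, ht⟩, w⟩, h3⟩ := h2
    simp only at h3
    rw [← map_mul] at h3
    have h4 := hinj h3
    have hQ : p ^ e ≠ 0 := pow_ne_zero _ (by omega)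
    obtain ⟨m, hm⟩ := Nat.exists_eq_succ_of_ne_zero hQ
    have h5 : c1 * z1 ^ p ^ e * (w : A) ^ p ^ e ∈
        frobPow (I.comap (algebraMap A (Localization W))) (p ^ e) := by
      have : c1 * z1 ^ p ^ e * (w : A) ^ p ^ e = (c1 * z1 ^ p ^ e * w) * (w : A) ^ m := by
        rw [show (w : A) ^ p ^ e = (w : A) * (w : A) ^ m by rw [hm, pow_succ']]
        ring
      rw [this, h4]
      exact Ideal.mul_mem_right _ _ ht
    have h6 := hφ.map_frobPow h5
    have h7 : φ (c1 * z1 ^ p ^ e * (w : A) ^ p ^ e) = z1 * w := by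
      have : c1 * z1 ^ p ^ e * (w : A) ^ p ^ e = (z1 * w) ^ p ^ e * c1 := by
        rw [mul_pow]; ring
      rw [this, hφ, hφc, mul_one]
    rw [h7, Ideal.mem_comap, map_mul, ← hw2] at h6
    have h8 := (Ideal.mul_unit_mem_iff_mem _ (IsLocalization.map_units (Localization W) w)).mp h6
    exact (Ideal.mul_unit_mem_iff_mem _ (IsLocalization.map_units (Localization W) w2)).mp h8
  · intro z hz
    refine ⟨1, ?_, 0, fun e _ => ?_⟩
    · intro P hP h1
      exact hP.1.1.ne_top ((Ideal.eq_top_iff_one _).mpr h1)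
    · rw [one_mul]; exact mem_frobPow hz

theorem SFR.of_equiv {p : ℕ} {B : Type*} [CommRing B] (h : SFR p A) (f : A ≃+* B) : SFR p B := by
  intro c hc e₀
  obtain ⟨e, he, φ, hφ, hφc⟩ := h (f.symm c) (by simpa using hc) e₀
  refine ⟨e, he, (f.toAddEquiv.toAddMonoidHom.comp φ).comp f.symm.toAddEquiv.toAddMonoidHom,
    ?_, ?_⟩
  · intro a b
    simp only [AddMonoidHom.comp_apply, RingEquiv.toAddEquiv_eq_coe, AddEquiv.coe_toAddMonoidHom,
      RingEquiv.coe_toAddEquiv, map_mul, map_pow]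
    rw [hφ (f.symm a) (f.symm b), map_mul, RingEquiv.apply_symm_apply]
  · simp [hφc]

theorem IsCart.comp {Q R : ℕ} {φ ψ : A →+ A} (hφ : IsCart Q φ) (hψ : IsCart R ψ) :
    IsCart (Q * R) (φ.comp ψ) := by
  intro a b
  rw [AddMonoidHom.comp_apply, AddMonoidHom.comp_apply, pow_mul, hψ, hφ]

theorem IsCart.mulLeft {Q : ℕ} {φ : A →+ A} (hφ : IsCart Q φ) (g : A) :
    IsCart Q (φ.comp (AddMonoidHom.mulLeft g)) := by
  intro a b
  simp only [AddMonoidHom.comp_apply, AddMonoidHom.coe_mulLeft]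
  rw [← hφ a (g * b)]
  congr 1
  ring

theorem isCart_id : IsCart 1 (AddMonoidHom.id A) := by
  intro a b; simp

/-- the exponents `1 + q + ... + q^(k-1)` -/
def geo (q : ℕ) : ℕ → ℕ
  | 0 => 0
  | k + 1 => 1 + q * geo q k

theorem le_geo {q : ℕ} (hq : 1 ≤ q) (k : ℕ) : k ≤ geo q k := by
  induction k with
  | zero => simp
  | succ k ih =>
    simp only [geo]
    nlinarith

theorem exists_iter {q : ℕ} {Φ : A →+ A} (hΦ : IsCart q Φ) {δ : A} (hδ : Φ δ = 1) (k : ℕ) :
    ∃ Ψ : A →+ A, IsCart (q ^ k) Ψ ∧ Ψ (δ ^ geo q k) = 1 := by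
  induction k with
  | zero => exact ⟨AddMonoidHom.id A, by simpa using isCart_id, by simp [geo]⟩
  | succ k ih =>
    obtain ⟨Ψ, h1, h2⟩ := ih
    refine ⟨Ψ.comp Φ, by simpa [pow_succ] using h1.comp hΦ, ?_⟩
    rw [AddMonoidHom.comp_apply, geo, add_comm 1, pow_add, pow_one, mul_comm q, pow_mul, hΦ, hδ,
      mul_one, h2]

/-- The Hochster-Huneke criterion in the form used here: if `Φ δ = 1` and every nonzero element is
mapped to a power of `δ` by some inverse-linear map, then the ring is strongly F-regular. -/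
theorem SFR.of_delta {p : ℕ} (hp : 2 ≤ p) {e₁ : ℕ} (he₁ : 1 ≤ e₁) {Φ : A →+ A}
    (hΦ : IsCart (p ^ e₁) Φ) {δ : A} (hδ : Φ δ = 1)
    (H : ∀ c : A, c ≠ 0 → ∃ e r : ℕ, ∃ χ : A →+ A, IsCart (p ^ e) χ ∧ χ c = δ ^ r) : SFR p A := by
  intro c hc e₀
  obtain ⟨e, r, χ, hχ, hχc⟩ := H c hc
  obtain ⟨Ψ, h1, h2⟩ := exists_iter hΦ hδ (r + e₀)
  have hq : 1 ≤ p ^ e₁ := Nat.one_le_pow _ _ (by omega)
  have hle := le_geo hq (r + e₀)
  refine ⟨e₁ * (r + e₀) + e, ?_,
    (Ψ.comp (AddMonoidHom.mulLeft (δ ^ (geo (p ^ e₁) (r + e₀) - r)))).comp χ, ?_, ?_⟩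
  · nlinarith
  · rw [pow_add, pow_mul]
    exact (h1.mulLeft _).comp hχ
  · simp only [AddMonoidHom.comp_apply, AddMonoidHom.coe_mulLeft]
    rw [hχc, ← pow_add, Nat.sub_add_cancel (by omega), h2]

end Pool.Agent.H42.Freg
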