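import Pool.Agent.H42.Freg.OddI

/-!
# The diagonal and anti-diagonal entries, even size
-/

set_option linter.unusedSimpArgs false
set_option linter.unreachableTactic false
set_option linter.unusedTactic false

namespace Pool.Agent.H42.Freg

/-- three more rows -/
inductive B3 | a | b | c
  deriving DecidableEq

instance : Fintype B3 := ⟨{.a, .b, .c}, by rintro ⟨⟩ <;> simp⟩

namespace EvenI

variable {κ : Type*} [DecidableEq κ]

/-- weights of the x-variables -/
def wx (k₀ : κ) : (κ × Bool) ⊕ Bool → (κ × Bool) ⊕ Bool → ℤ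
  | .inl (_, false), .inr false => 3
  | .inl (_, true), .inr false => 0
  | .inl _, .inr true => -100
  | .inr false, .inl _ => 1
  | .inr true, .inl (k, true) => if k = k₀ then 1 else -100
  | .inr true, .inl (k, false) => if k = k₀ then 0 else -100
  | .inr true, .inr true => 3
  | .inr true, .inr false => 0
  | .inr false, .inr true => 0
  | .inr false, .inr false => -100
  | .inl (k, false), .inl (k', true) => if k = k' then 20 else -100
  | .inl (k, true), .inl (k', false) => if k = k' then 2 else -100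
  | .inl (k, true), .inl (k', true) => if k = k' then 0 else -100
  | .inl (_, false), .inl (_, false) => -100

/-- weights of the y-variables -/
def wy (k₀ : κ) : (κ × Bool) ⊕ Bool → (κ × Bool) ⊕ Bool → ℤ
  | .inl _, .inr false => 0
  | .inl (k, true), .inr true => if k = k₀ then 0 else -100
  | .inl (_, false), .inr true => -100
  | .inr false, .inl (_, false) => 0
  | .inr false, .inl (_, true) => -100
  | .inr true, .inl _ => -100
  | .inr false, .inr true => 0
  | .inr false, .inr false => 2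
  | .inr true, .inr _ => -100
  | .inl (k, false), .inl (k', true) => if k = k' then 0 else -100
  | .inl (_, true), .inl (_, false) => -100
  | .inl (_, true), .inl (_, true) => -100
  | .inl (_, false), .inl (_, false) => -100

/-- rows -/
def row : (κ × B4) ⊕ B3 → ((κ × Bool) ⊕ Bool) × ((κ × Bool) ⊕ Bool)
  | .inl (k, .a) => (.inl (k, false), .inl (k, false))
  | .inl (k, .b) => (.inl (k, false), .inl (k, true))
  | .inl (k, .c) => (.inl (k, true), .inl (k, false))
  | .inl (k, .d) => (.inl (k, true), .inl (k, true))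
  | .inr .a => (.inr true, .inr true)
  | .inr .b => (.inr false, .inr true)
  | .inr .c => (.inr true, .inr false)

/-- columns -/
def col (k₀ : κ) : (κ × B4) ⊕ B3 → ((κ × Bool) ⊕ Bool) × ((κ × Bool) ⊕ Bool)
  | .inl (k, .a) => (.inl (k, true), .inl (k, false))
  | .inl (k, .b) => (.inl (k, false), .inl (k, true))
  | .inl (k, .c) => (.inr false, .inl (k, false))
  | .inl (k, .d) => (.inr false, .inl (k, true))
  | .inr .a => (.inl (k₀, false), .inr true)
  | .inr .b => (.inr false, .inr false)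
  | .inr .c => (.inr true, .inl (k₀, true))

/-- middle index of the leading monomial -/
def mid (k₀ : κ) : (κ × B4) ⊕ B3 → (κ × Bool) ⊕ Bool
  | .inl (k, .d) => .inl (k, false)
  | .inl _ => .inr false
  | .inr .a => .inl (k₀, true)
  | .inr .b => .inr true
  | .inr .c => .inr false

/-- type of the leading monomial -/
def sgn : (κ × B4) ⊕ B3 → Bool
  | .inl (_, .a) => true
  | .inl (_, .b) => false
  | .inl (_, .c) => false
  | .inl (_, .d) => true
  | .inr .a => true
  | .inr .b => false
  | .inr .c => true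

/-- the leading variables of the diagonal entries -/
def mv (k₀ : κ) : (κ × B4) ⊕ B3 → ((κ × Bool) ⊕ Bool) × ((κ × Bool) ⊕ Bool)
  | .inl (k, .a) => (.inl (k, false), .inl (k, true))
  | .inl (k, .b) => (.inl (k, true), .inl (k, true))
  | .inl (k, .c) => (.inl (k, true), .inr false)
  | .inl (k, .d) => (.inl (k, true), .inr false)
  | .inr .a => (.inr true, .inl (k₀, false))
  | .inr .b => (.inr false, .inr true)
  | .inr .c => (.inl (k₀, true), .inr false)

/-- row potentials -/
def al : (κ × B4) ⊕ B3 → ℤ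
  | .inl (_, .a) => 0
  | .inl (_, .b) => -3
  | .inl (_, .c) => -11
  | .inl (_, .d) => -7
  | .inr .a => -8
  | .inr .b => -6
  | .inr .c => -5

/-- column potentials -/
def be : (κ × B4) ⊕ B3 → ℤ
  | .inl (_, .a) => 20
  | .inl (_, .b) => 3
  | .inl (_, .c) => 11
  | .inl (_, .d) => 7
  | .inr .a => 8
  | .inr .b => 6
  | .inr .c => 5

/-- parent rows -/
def par : (κ × B4) ⊕ B3 → (κ × B4) ⊕ B3
  | .inl (k, _) => .inl (k, .a)
  | .inr _ => .inr .a

/-- rows with a parent -/
def hp : (κ × B4) ⊕ B3 → Bool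
  | .inl (_, .d) => true
  | _ => false

/-- the certificate -/
def comb (k₀ : κ) : Comb ((κ × Bool) ⊕ Bool) ((κ × B4) ⊕ B3) where
  row := row
  par := par
  hp := hp
  col := col k₀
  wx := wx k₀
  wy := wy k₀
  mid := mid k₀
  sgn := sgn
  mv := mv k₀
  α := al
  β := be
  par_ok := by
    rintro (⟨k, _ | _ | _ | _⟩ | _ | _ | _) _ <;> rfl
  col_inj := by
    rintro (⟨k, _ | _ | _ | _⟩ | _ | _ | _) (⟨k', _ | _ | _ | _⟩ | _ | _ | _) h <;>
      simp_all [col]
  lead1 := by
    rintro (⟨k, _ | _ | _ | _⟩ | _ | _ | _) (⟨k', _ | _⟩ | _ | _) <;>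
      simp [wx, wy, row, mid, sgn] <;> (try split_ifs) <;> first | omega | simp_all
  lead2 := by
    rintro (⟨k, _ | _ | _ | _⟩ | _ | _ | _) (⟨k', _ | _⟩ | _ | _) <;>
      simp [wx, wy, row, mid, sgn] <;> (try split_ifs) <;> first | omega | simp_all
  ent1 := by
    rintro (⟨k, _ | _ | _ | _⟩ | _ | _ | _) (⟨k', _ | _ | _ | _⟩ | _ | _ | _) h h' <;>
      simp_all [wx, row, col, mv, al, be, kt, hp, par]
  ent2 := by
    rintro (⟨k, _ | _ | _ | _⟩ | _ | _ | _) (⟨k', _ | _ | _ | _⟩ | _ | _ | _) h h' <;>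
      simp_all [wx, row, col, mv, al, be, kt, hp, par]
  ent3 := by
    rintro (⟨k, _ | _ | _ | _⟩ | _ | _ | _) (⟨k', _ | _ | _ | _⟩ | _ | _ | _) h0 h h' <;>
      simp_all [wx, row, col, mv, al, be, kt, hp, par]
  ent4 := by
    rintro (⟨k, _ | _ | _ | _⟩ | _ | _ | _) (⟨k', _ | _ | _ | _⟩ | _ | _ | _) h0 h h' <;>
      simp_all [wx, row, col, mv, al, be, kt, hp, par]
  diag := by
    rintro (⟨k, _ | _ | _ | _⟩ | _ | _ | _) <;> simp [row, col, mv, kt, hp, par]
  mvw := by
    rintro (⟨k, _ | _ | _ | _⟩ | _ | _ | _) <;> simp [wx, mv, al, be]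
  lx_inj := by
    rintro (⟨k, _ | _ | _ | _⟩ | _ | _ | _) (⟨k', _ | _ | _ | _⟩ | _ | _ | _) h <;>
      simp_all [row, mid, sgn]
  ly_inj := by
    rintro (⟨k, _ | _ | _ | _⟩ | _ | _ | _) (⟨k', _ | _ | _ | _⟩ | _ | _ | _) h <;>
      simp_all [row, mid, sgn]
  mv_ne := by
    rintro (⟨k, _ | _ | _ | _⟩ | _ | _ | _) (⟨k', _ | _ | _ | _⟩ | _ | _ | _) <;>
      simp [row, mid, sgn, mv]

end EvenI

end Pool.Agent.H42.Freg
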