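import Pool.Agent.H42.Freg.EvenI
import Pool.Agent.H42.Freg.CasesJ

/-!
# Transport to `Fin n`
-/

open MvPolynomial

set_option linter.unusedSectionVars false

namespace Pool.Agent.H42.Freg

variable {ι ι' K : Type*} [Fintype ι] [DecidableEq ι] [Fintype ι'] [DecidableEq ι'] [Field K]

/-- The conclusion: the quotient is a domain and has enough inverse-linear maps. -/
def Good (p : ℕ) (A : Type*) [CommRing A] : Prop := IsDomain A ∧ SFR p A

theorem Good.of_equiv {p : ℕ} {A B : Type*} [CommRing A] [CommRing B] (h : Good p A)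
    (f : A ≃+* B) : Good p B := by
  have := h.1
  exact ⟨f.symm.injective.isDomain f.symm.toRingHom, h.2.of_equiv f⟩

/-- renaming the variables -/
noncomputable def ren (K : Type*) [Field K] (ε : ι ≃ ι') :
    MvPolynomial (V ι) K ≃ₐ[K] MvPolynomial (V ι') K :=
  renameEquiv K (Equiv.sumCongr (ε.prodCongr ε) (ε.prodCongr ε))

theorem ren_cc (ε : ι ≃ ι') (i j : ι) : ren K ε (cc K i j) = cc K (ε i) (ε j) := by
  rw [cc_eq, cc_eq, map_sub, map_sum, map_sum]
  congr 1
  · rw [← ε.sum_comp]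
    refine Finset.sum_congr rfl fun k _ => ?_
    rw [map_mul]
    simp [ren]
  · rw [← ε.sum_comp]
    refine Finset.sum_congr rfl fun k _ => ?_
    rw [map_mul]
    simp [ren]

theorem Good.transport {p : ℕ} (ε : ι ≃ ι') {T : Type*} (g : T → ι × ι)
    (h : Good p (MvPolynomial (V ι) K ⧸ Ideal.span (Set.range fun t => cc K (g t).1 (g t).2))) :
    Good p (MvPolynomial (V ι') K ⧸
      Ideal.span (Set.range fun t => cc K (ε (g t).1) (ε (g t).2))) := by
  refine h.of_equiv (Ideal.quotientEquiv _ _ (ren K ε).toRingEquiv ?_)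
  rw [Ideal.map_span, ← Set.range_comp]
  congr 1
  congr 1
  funext t
  exact (ren_cc ε _ _).symm

theorem sum_cc : ∑ a : ι, cc K a a = 0 := by
  have h := Matrix.trace_sub (matX ι K * matY ι K) (matY ι K * matX ι K)
  rw [Matrix.trace_mul_comm (matX ι K) (matY ι K), sub_self] at h
  exact h

/-- The ideal of diagonal and anti-diagonal entries is generated without one diagonal entry. -/
theorem span_diag (rv : ι → ι) {T : Type*} (g : T → ι × ι) (r : ι)
    (h1 : ∀ t, (g t).2 = (g t).1 ∨ (g t).2 = rv (g t).1)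
    (h2 : ∀ a, a ≠ r → ∃ t, g t = (a, a)) (h3 : ∀ a, rv a ≠ a → ∃ t, g t = (a, rv a)) :
    Ideal.span (Set.range fun t => cc K (g t).1 (g t).2) =
      Ideal.span (Set.range fun a => cc K a a) ⊔ Ideal.span (Set.range fun a => cc K a (rv a)) := by
  apply le_antisymm
  · refine Ideal.span_le.mpr ?_
    rintro _ ⟨t, rfl⟩
    rcases h1 t with h | h
    · show cc K (g t).1 (g t).2 ∈ _
      rw [h]
      exact Ideal.mem_sup_left (Ideal.subset_span ⟨_, rfl⟩)
    · show cc K (g t).1 (g t).2 ∈ _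
      rw [h]
      exact Ideal.mem_sup_right (Ideal.subset_span ⟨_, rfl⟩)
  · have hd : ∀ a, cc K a a ∈ Ideal.span (Set.range fun t => cc K (g t).1 (g t).2) := by
      intro a
      by_cases ha : a = r
      · have h := sum_cc (K := K) (ι := ι)
        rw [← Finset.add_sum_erase _ _ (Finset.mem_univ r)] at h
        rw [ha, eq_neg_of_add_eq_zero_left h]
        refine Ideal.neg_mem_iff _ |>.mpr (Ideal.sum_mem _ fun b hb => ?_)
        obtain ⟨t, ht⟩ := h2 b (Finset.ne_of_mem_erase hb)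
        exact Ideal.subset_span ⟨t, by simp only [ht]⟩
      · obtain ⟨t, ht⟩ := h2 a ha
        exact Ideal.subset_span ⟨t, by simp only [ht]⟩
    refine sup_le (Ideal.span_le.mpr ?_) (Ideal.span_le.mpr ?_)
    · rintro _ ⟨a, rfl⟩
      exact hd a
    · rintro _ ⟨a, rfl⟩
      show cc K a (rv a) ∈ _
      by_cases ha : rv a = a
      · rw [ha]; exact hd a
      · obtain ⟨t, ht⟩ := h3 a ha
        exact Ideal.subset_span ⟨t, by simp only [ht]⟩

theorem Good.diag {p : ℕ} (ε : ι ≃ ι') (rv : ι → ι) (rv' : ι' → ι')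
    (hrv : ∀ a, ε (rv a) = rv' (ε a))
    (h : Good p (MvPolynomial (V ι) K ⧸ (Ideal.span (Set.range fun a => cc K a a) ⊔
      Ideal.span (Set.range fun a => cc K a (rv a))))) :
    Good p (MvPolynomial (V ι') K ⧸ (Ideal.span (Set.range fun a => cc K a a) ⊔
      Ideal.span (Set.range fun a => cc K a (rv' a)))) := by
  refine h.of_equiv (Ideal.quotientEquiv _ _ (ren K ε).toRingEquiv ?_)
  rw [Ideal.map_sup, Ideal.map_span, Ideal.map_span, ← Set.range_comp, ← Set.range_comp]
  congr 1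
  · congr 1
    rw [← ε.surjective.range_comp]
    congr 1
    funext t
    exact (ren_cc ε _ _).symm
  · congr 1
    rw [← ε.surjective.range_comp]
    congr 1
    funext t
    simp only [Function.comp_apply]
    rw [← hrv]
    exact (ren_cc ε _ _).symm

theorem Good.anti {p : ℕ} (ε : ι ≃ ι') (rv : ι → ι) (rv' : ι' → ι')
    (hrv : ∀ a, ε (rv a) = rv' (ε a))
    (h : Good p (MvPolynomial (V ι) K ⧸ Ideal.span (Set.range fun a => cc K a (rv a)))) :
    Good p (MvPolynomial (V ι') K ⧸ Ideal.span (Set.range fun a => cc K a (rv' a))) := by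
  refine h.of_equiv (Ideal.quotientEquiv _ _ (ren K ε).toRingEquiv ?_)
  rw [Ideal.map_span, ← Set.range_comp]
  congr 1
  rw [← ε.surjective.range_comp]
  congr 1
  funext t
  simp only [Function.comp_apply]
  rw [← hrv]
  exact (ren_cc ε _ _).symm

section Cases

variable (p : ℕ) [Fact p.Prime] [CharP K p] {κ : Type*} [Fintype κ] [DecidableEq κ]

/-- the involution, odd size -/
def rvO : (κ × Bool) ⊕ Unit → (κ × Bool) ⊕ Unit
  | .inl (k, b) => .inl (k, !b)
  | .inr _ => .inr ()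

/-- the involution, even size -/
def rvE : (κ × Bool) ⊕ Bool → (κ × Bool) ⊕ Bool
  | .inl (k, b) => .inl (k, !b)
  | .inr b => .inr !b

theorem good_oddI : Good p (MvPolynomial (V ((κ × Bool) ⊕ Unit)) K ⧸
    (Ideal.span (Set.range fun a => cc K a a) ⊔
      Ideal.span (Set.range fun a => cc K a (rvO a)))) := by
  have h := (OddI.comb (κ := κ)).sfr (K := K) p
  rw [← span_diag rvO (OddI.row (κ := κ)) (.inr ())]
  · exact h
  · rintro ⟨k, _ | _ | _ | _⟩ <;> simp [OddI.row, rvO]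
  · rintro (⟨k, _ | _⟩ | ⟨⟩) h
    · exact ⟨(k, .a), rfl⟩
    · exact ⟨(k, .d), rfl⟩
    · exact absurd rfl h
  · rintro (⟨k, _ | _⟩ | ⟨⟩) h
    · exact ⟨(k, .b), rfl⟩
    · exact ⟨(k, .c), rfl⟩
    · exact absurd rfl h

theorem good_evenI (k₀ : κ) : Good p (MvPolynomial (V ((κ × Bool) ⊕ Bool)) K ⧸
    (Ideal.span (Set.range fun a => cc K a a) ⊔
      Ideal.span (Set.range fun a => cc K a (rvE a)))) := by
  have h := (EvenI.comb k₀).sfr (K := K) p
  rw [← span_diag rvE (EvenI.row (κ := κ)) (.inr false)]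
  · exact h
  · rintro (⟨k, _ | _ | _ | _⟩ | _ | _ | _) <;> simp [EvenI.row, rvE]
  · rintro (⟨k, _ | _⟩ | _ | _) h
    · exact ⟨.inl (k, .a), rfl⟩
    · exact ⟨.inl (k, .d), rfl⟩
    · exact absurd rfl h
    · exact ⟨.inr .a, rfl⟩
  · rintro (⟨k, _ | _⟩ | _ | _) h
    · exact ⟨.inl (k, .b), rfl⟩
    · exact ⟨.inl (k, .c), rfl⟩
    · exact ⟨.inr .b, rfl⟩
    · exact ⟨.inr .c, rfl⟩

theorem good_oddJ (k₀ : κ) : Good p (MvPolynomial (V ((κ × Bool) ⊕ Unit)) K ⧸
    Ideal.span (Set.range fun a => cc K a (rvO a))) := by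
  have h := (OddJ.comb k₀).sfr (K := K) p
  have e : (OddJ.comb k₀).g K = fun a => cc K a (rvO a) := by
    funext a
    rcases a with ⟨k, _ | _⟩ | ⟨⟩ <;> rfl
  rw [e] at h
  exact h

theorem good_evenJ (k₀ : κ) : Good p (MvPolynomial (V ((κ × Bool) ⊕ Bool)) K ⧸
    Ideal.span (Set.range fun a => cc K a (rvE a))) := by
  have h := (EvenJ.comb k₀).sfr (K := K) p
  have e : (EvenJ.comb k₀).g K = fun a => cc K a (rvE a) := by
    funext a
    rcases a with ⟨k, _ | _⟩ | _ | _ <;> rfl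
  rw [e] at h
  exact h

end Cases

theorem exists_eps_odd (k : ℕ) : ∃ ε : (Fin k × Bool) ⊕ Unit ≃ Fin (2 * k + 1),
    ∀ a, ε (rvO a) = Fin.rev (ε a) := by
  let g : (Fin k × Bool) ⊕ Unit → Fin (2 * k + 1)
    | .inl (i, false) => ⟨i, by omega⟩
    | .inl (i, true) => ⟨2 * k - i, by omega⟩
    | .inr _ => ⟨k, by omega⟩
  have hinj : Function.Injective g := by
    rintro (⟨i, _ | _⟩ | ⟨⟩) (⟨j, _ | _⟩ | ⟨⟩) h <;>
      simp only [g, Fin.mk.injEq] at h <;>
      (try have hi := i.2) <;> (try have hj := j.2) <;>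
      first
      | rfl
      | (exfalso; omega)
      | (have : i = j := Fin.ext (by omega)
         rw [this])
  have hbij : Function.Bijective g := by
    rw [Fintype.bijective_iff_injective_and_card]
    refine ⟨hinj, ?_⟩
    simp
    ring
  refine ⟨Equiv.ofBijective g hbij, ?_⟩
  rintro (⟨i, _ | _⟩ | ⟨⟩) <;> apply Fin.ext <;>
    simp only [Equiv.ofBijective_apply, rvO, g, Fin.rev, Bool.not_true, Bool.not_false] <;>
    (try have hi := i.2) <;> omega

theorem exists_eps_even (k : ℕ) : ∃ ε : (Fin k × Bool) ⊕ Bool ≃ Fin (2 * k + 2),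
    ∀ a, ε (rvE a) = Fin.rev (ε a) := by
  let g : (Fin k × Bool) ⊕ Bool → Fin (2 * k + 2)
    | .inl (i, false) => ⟨i, by omega⟩
    | .inl (i, true) => ⟨2 * k + 1 - i, by omega⟩
    | .inr false => ⟨k, by omega⟩
    | .inr true => ⟨k + 1, by omega⟩
  have hinj : Function.Injective g := by
    rintro (⟨i, _ | _⟩ | _ | _) (⟨j, _ | _⟩ | _ | _) h <;>
      simp only [g, Fin.mk.injEq] at h <;>
      (try have hi := i.2) <;> (try have hj := j.2) <;>
      first
      | rfl
      | (exfalso; omega)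
      | (have : i = j := Fin.ext (by omega)
         rw [this])
  have hbij : Function.Bijective g := by
    rw [Fintype.bijective_iff_injective_and_card]
    refine ⟨hinj, ?_⟩
    simp
    ring
  refine ⟨Equiv.ofBijective g hbij, ?_⟩
  rintro (⟨i, _ | _⟩ | _ | _) <;> apply Fin.ext <;>
    simp only [Equiv.ofBijective_apply, rvE, g, Fin.rev, Bool.not_true, Bool.not_false] <;>
    (try have hi := i.2) <;> omega

/-- The main theorem in terms of `Good`. -/
theorem good_main (p : ℕ) [Fact p.Prime] [CharP K p] {n : ℕ} (hn : 3 ≤ n) :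
    Good p (MvPolynomial (V (Fin n)) K ⧸ (Ideal.span (Set.range fun a => cc K a a) ⊔
      Ideal.span (Set.range fun a => cc K a (Fin.rev a)))) ∧
    Good p (MvPolynomial (V (Fin n)) K ⧸ Ideal.span (Set.range fun a => cc K a (Fin.rev a))) := by
  rcases Nat.even_or_odd n with ⟨m, hm⟩ | ⟨k, hk⟩
  · obtain ⟨k, rfl⟩ : ∃ k, n = 2 * k + 2 := ⟨m - 1, by omega⟩
    obtain ⟨ε, hε⟩ := exists_eps_even k
    have k₀ : Fin k := ⟨0, by omega⟩
    exact ⟨(good_evenI p k₀).diag ε rvE Fin.rev hε, (good_evenJ p k₀).anti ε rvE Fin.rev hε⟩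
  · subst hk
    obtain ⟨ε, hε⟩ := exists_eps_odd k
    have k₀ : Fin k := ⟨0, by omega⟩
    exact ⟨(good_oddI p).diag ε rvO Fin.rev hε, (good_oddJ p k₀).anti ε rvO Fin.rev hε⟩

end Pool.Agent.H42.Freg
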