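import Pool.Agent.H42.Freg.Cartier

/-!
# Extension of inverse-linear maps to the fraction field
-/

namespace Pool.Agent.H42.Freg

section Frac

variable {P L : Type*} [CommRing P] [IsDomain P] [Field L] [Algebra P L] [IsFractionRing P L]

omit [IsDomain P] in
theorem fracWD {Q : ℕ} (hQ : 0 < Q) {ψ : P →+ P} (hψ : IsCart Q ψ) {a b a' b' : P} (hb : b ≠ 0)
    (hb' : b' ≠ 0) (h : algebraMap P L a / algebraMap P L b = algebraMap P L a' / algebraMap P L b') :
    algebraMap P L (ψ (a * b ^ (Q - 1))) / algebraMap P L b =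
      algebraMap P L (ψ (a' * b' ^ (Q - 1))) / algebraMap P L b' := by
  have hinj : Function.Injective (algebraMap P L) := IsFractionRing.injective P L
  have h1 : algebraMap P L b ≠ 0 := fun h0 => hb (hinj (by rw [h0, map_zero]))
  have h2 : algebraMap P L b' ≠ 0 := fun h0 => hb' (hinj (by rw [h0, map_zero]))
  rw [div_eq_div_iff h1 h2] at h ⊢
  rw [← map_mul, ← map_mul] at h ⊢
  have h3 := hinj h
  congr 1
  obtain ⟨m, rfl⟩ := Nat.exists_eq_succ_of_ne_zero hQ.ne'
  simp only [Nat.succ_sub_one]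
  rw [mul_comm (ψ _) b', mul_comm (ψ _) b, ← hψ, ← hψ]
  congr 1
  calc b' ^ (m + 1) * (a * b ^ m) = b' ^ m * b ^ m * (a * b') := by ring
    _ = b ^ (m + 1) * (a' * b' ^ m) := by rw [h3]; ring

variable (P L) in
theorem exists_rep (x : L) : ∃ ab : P × P, ab.2 ≠ 0 ∧
    algebraMap P L ab.1 / algebraMap P L ab.2 = x := by
  obtain ⟨a, b, hb, rfl⟩ := IsFractionRing.div_surjective (A := P) x
  exact ⟨(a, b), nonZeroDivisors.ne_zero hb, rfl⟩

/-- the extension to the fraction field, as a function -/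
noncomputable def fracFun (L : Type*) [Field L] [Algebra P L] [IsFractionRing P L] (Q : ℕ)
    (ψ : P →+ P) (x : L) : L :=
  algebraMap P L (ψ ((exists_rep P L x).choose.1 * (exists_rep P L x).choose.2 ^ (Q - 1))) /
    algebraMap P L (exists_rep P L x).choose.2

theorem fracFun_eq {Q : ℕ} (hQ : 0 < Q) {ψ : P →+ P} (hψ : IsCart Q ψ) (a : P) {b : P}
    (hb : b ≠ 0) : fracFun L Q ψ (algebraMap P L a / algebraMap P L b) =
      algebraMap P L (ψ (a * b ^ (Q - 1))) / algebraMap P L b := by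
  have h := (exists_rep P L (algebraMap P L a / algebraMap P L b)).choose_spec
  exact fracWD hQ hψ h.1 hb h.2

theorem exists_frac {Q : ℕ} (hQ : 0 < Q) {ψ : P →+ P} (hψ : IsCart Q ψ) :
    ∃ ψL : L →+ L, IsCart Q ψL ∧ ∀ a, ψL (algebraMap P L a) = algebraMap P L (ψ a) := by
  have hinj : Function.Injective (algebraMap P L) := IsFractionRing.injective P L
  have hne : ∀ {b : P}, b ≠ 0 → algebraMap P L b ≠ 0 := fun hb h0 => hb (hinj (by rw [h0, map_zero]))
  have h1 : ∀ a, fracFun L Q ψ (algebraMap P L a) = algebraMap P L (ψ a) := by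
    intro a
    have := fracFun_eq (L := L) hQ hψ a (one_ne_zero (α := P))
    simpa using this
  refine ⟨⟨⟨fracFun L Q ψ, by simpa using h1 0⟩, ?_⟩, ?_, h1⟩
  · intro x y
    obtain ⟨⟨a, b⟩, hb, rfl⟩ := exists_rep P L x
    obtain ⟨⟨c, d⟩, hd, rfl⟩ := exists_rep P L y
    simp only at hb hd ⊢
    have hbd : b * d ≠ 0 := mul_ne_zero hb hd
    have e1 : algebraMap P L a / algebraMap P L b = algebraMap P L (a * d) / algebraMap P L (b * d) := by
      rw [map_mul, map_mul, mul_div_mul_right _ _ (hne hd)]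
    have e2 : algebraMap P L c / algebraMap P L d = algebraMap P L (b * c) / algebraMap P L (b * d) := by
      rw [map_mul, map_mul, mul_div_mul_left _ _ (hne hb)]
    rw [e1, e2, ← add_div, ← map_add, fracFun_eq hQ hψ _ hbd, fracFun_eq hQ hψ _ hbd,
      fracFun_eq hQ hψ _ hbd, add_mul, map_add, map_add, add_div]
  · intro x y
    show fracFun L Q ψ (x ^ Q * y) = x * fracFun L Q ψ y
    obtain ⟨⟨a, b⟩, hb, rfl⟩ := exists_rep P L x
    obtain ⟨⟨c, d⟩, hd, rfl⟩ := exists_rep P L y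
    simp only at hb hd ⊢
    have hbd : b ^ Q * d ≠ 0 := mul_ne_zero (pow_ne_zero _ hb) hd
    have e1 : (algebraMap P L a / algebraMap P L b) ^ Q * (algebraMap P L c / algebraMap P L d) =
        algebraMap P L (a ^ Q * c) / algebraMap P L (b ^ Q * d) := by
      rw [div_pow, div_mul_div_comm, map_mul, map_mul, map_pow, map_pow]
    rw [e1, fracFun_eq hQ hψ _ hbd, fracFun_eq hQ hψ _ hd]
    have e2 : a ^ Q * c * (b ^ Q * d) ^ (Q - 1) = (a * b ^ (Q - 1)) ^ Q * (c * d ^ (Q - 1)) := by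
      rw [mul_pow, mul_pow, ← pow_mul, ← pow_mul, mul_comm (Q - 1) Q]; ring
    have hb' := hne hb
    have hd' := hne hd
    rw [e2, hψ]
    generalize ψ (c * d ^ (Q - 1)) = t
    rw [map_mul, map_mul, map_mul, map_pow, map_pow]
    obtain ⟨m, rfl⟩ : ∃ m, Q = m + 1 := ⟨Q - 1, by omega⟩
    rw [Nat.add_sub_cancel, div_mul_div_comm, div_eq_div_iff (mul_ne_zero (pow_ne_zero _ hb') hd')
      (mul_ne_zero hb' hd')]
    ring

end Frac

end Pool.Agent.H42.Freg
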