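import Pool.Agent.H42.Freg.Comm

/-!
# The diagonal and anti-diagonal entries, odd size
-/

set_option linter.unusedSimpArgs false
set_option linter.unreachableTactic false
set_option linter.unusedTactic false

namespace Pool.Agent.H42.Freg

/-- four rows for each block -/
inductive B4 | a | b | c | d
  deriving DecidableEq

instance : Fintype B4 := ⟨{.a, .b, .c, .d}, by rintro ⟨⟩ <;> simp⟩

namespace OddI

variable {κ : Type*} [DecidableEq κ]

/-- weights of the x-variables -/
def wx : (κ × Bool) ⊕ Unit → (κ × Bool) ⊕ Unit → ℤ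
  | .inl (_, false), .inr _ => 3
  | .inl (_, true), .inr _ => 0
  | .inr _, .inl _ => 1
  | .inr _, .inr _ => -100
  | .inl (k, false), .inl (k', true) => if k = k' then 20 else -100
  | .inl (k, true), .inl (k', false) => if k = k' then 2 else -100
  | .inl (k, true), .inl (k', true) => if k = k' then 0 else -100
  | .inl (_, false), .inl (_, false) => -100

/-- weights of the y-variables -/
def wy : (κ × Bool) ⊕ Unit → (κ × Bool) ⊕ Unit → ℤ
  | .inl _, .inr _ => 0
  | .inr _, .inl (_, false) => 0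
  | .inr _, .inl (_, true) => -100
  | .inr _, .inr _ => -100
  | .inl (k, false), .inl (k', true) => if k = k' then 0 else -100
  | .inl (_, true), .inl (_, false) => -100
  | .inl (_, true), .inl (_, true) => -100
  | .inl (_, false), .inl (_, false) => -100

/-- rows -/
def row : κ × B4 → ((κ × Bool) ⊕ Unit) × ((κ × Bool) ⊕ Unit)
  | (k, .a) => (.inl (k, false), .inl (k, false))
  | (k, .b) => (.inl (k, false), .inl (k, true))
  | (k, .c) => (.inl (k, true), .inl (k, false))
  | (k, .d) => (.inl (k, true), .inl (k, true))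

/-- columns -/
def col : κ × B4 → ((κ × Bool) ⊕ Unit) × ((κ × Bool) ⊕ Unit)
  | (k, .a) => (.inl (k, true), .inl (k, false))
  | (k, .b) => (.inl (k, false), .inl (k, true))
  | (k, .c) => (.inr (), .inl (k, false))
  | (k, .d) => (.inr (), .inl (k, true))

/-- middle index of the leading monomial -/
def mid : κ × B4 → (κ × Bool) ⊕ Unit
  | (k, .d) => .inl (k, false)
  | _ => .inr ()

/-- type of the leading monomial -/
def sgn : κ × B4 → Bool
  | (_, .a) => true
  | (_, .d) => true
  | _ => false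

/-- the leading variables of the diagonal entries -/
def mv : κ × B4 → ((κ × Bool) ⊕ Unit) × ((κ × Bool) ⊕ Unit)
  | (k, .a) => (.inl (k, false), .inl (k, true))
  | (k, .b) => (.inl (k, true), .inl (k, true))
  | (k, .c) => (.inl (k, true), .inr ())
  | (k, .d) => (.inl (k, true), .inr ())

/-- row potentials -/
def al : B4 → ℤ
  | .a => 0
  | .b => -3
  | .c => -11
  | .d => -7

/-- column potentials -/
def be : B4 → ℤ
  | .a => 20
  | .b => 3
  | .c => 11
  | .d => 7

/-- the certificate -/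
def comb : Comb ((κ × Bool) ⊕ Unit) (κ × B4) where
  row := row
  par e := (e.1, .a)
  hp e := match e.2 with | .d => true | _ => false
  col := col
  wx := wx
  wy := wy
  mid := mid
  sgn := sgn
  mv := mv
  α e := al e.2
  β e := be e.2
  par_ok e _ := rfl
  col_inj := by
    rintro ⟨k, _ | _ | _ | _⟩ ⟨k', _ | _ | _ | _⟩ h <;> simp_all [col]
  lead1 := by
    rintro ⟨k, _ | _ | _ | _⟩ (⟨k', _ | _⟩ | ⟨⟩) <;>
      simp [wx, wy, row, mid, sgn] <;> (try split_ifs) <;> first | omega | simp_all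
  lead2 := by
    rintro ⟨k, _ | _ | _ | _⟩ (⟨k', _ | _⟩ | ⟨⟩) <;>
      simp [wx, wy, row, mid, sgn] <;> (try split_ifs) <;> first | omega | simp_all
  ent1 := by
    rintro ⟨k, _ | _ | _ | _⟩ ⟨k', _ | _ | _ | _⟩ h h' <;>
      simp_all [wx, row, col, mv, al, be, kt]
  ent2 := by
    rintro ⟨k, _ | _ | _ | _⟩ ⟨k', _ | _ | _ | _⟩ h h' <;>
      simp_all [wx, row, col, mv, al, be, kt]
  ent3 := by
    rintro ⟨k, _ | _ | _ | _⟩ ⟨k', _ | _ | _ | _⟩ h0 h h' <;>
      simp_all [wx, row, col, mv, al, be, kt]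
  ent4 := by
    rintro ⟨k, _ | _ | _ | _⟩ ⟨k', _ | _ | _ | _⟩ h0 h h' <;>
      simp_all [wx, row, col, mv, al, be, kt]
  diag := by
    rintro ⟨k, _ | _ | _ | _⟩ <;> simp [row, col, mv, kt]
  mvw := by
    rintro ⟨k, _ | _ | _ | _⟩ <;> simp [wx, mv, al, be]
  lx_inj := by
    rintro ⟨k, _ | _ | _ | _⟩ ⟨k', _ | _ | _ | _⟩ h <;> simp_all [row, mid, sgn]
  ly_inj := by
    rintro ⟨k, _ | _ | _ | _⟩ ⟨k', _ | _ | _ | _⟩ h <;> simp_all [row, mid, sgn]
  mv_ne := by
    rintro ⟨k, _ | _ | _ | _⟩ ⟨k', _ | _ | _ | _⟩ <;> simp [row, mid, sgn, mv]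

end OddI

end Pool.Agent.H42.Freg
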